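import Pool.Agent.H257R2.Tutte.Main

set_option autoImplicit false

/-!
Intervals closed under series and parallel connection, and the iteration that shrinks them.
-/

namespace Pool.Agent.H257R2.Tutte

open Finset

/-- duality in `y = 1 + v` coordinates: `v ↦ q / v` -/
noncomputable def dl (q y : ℝ) : ℝ := 1 - q / (1 - y)

theorem dl_lt_one {q y : ℝ} (hq : 0 < q) (hy : y < 1) : dl q y < 1 := by
  unfold dl
  have : 0 < q / (1 - y) := div_pos hq (by linarith)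
  linarith

theorem dl_dl {q y : ℝ} (hq : 0 < q) (hy : y < 1) : dl q (dl q y) = y := by
  unfold dl
  have h1 : 1 - y ≠ 0 := by
    have : 0 < 1 - y := by linarith
    exact this.ne'
  have h2 : 1 - (1 - q / (1 - y)) = q / (1 - y) := by ring
  rw [h2]
  field_simp
  ring

theorem dl_anti {q y y' : ℝ} (hq : 0 < q) (hy : y' < 1) (h : y ≤ y') : dl q y' ≤ dl q y := by
  unfold dl
  have h1 : q / (1 - y) ≤ q / (1 - y') := div_le_div_of_nonneg_left hq.le (by linarith) (by linarith)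
  linarith

theorem dl_strictAnti {q y y' : ℝ} (hq : 0 < q) (hy : y' < 1) (h : y < y') :
    dl q y' < dl q y := by
  unfold dl
  have h1 : q / (1 - y) < q / (1 - y') := div_lt_div_of_pos_left hq (by linarith) (by linarith)
  linarith

theorem dl_le_iff {q y y' : ℝ} (hq : 0 < q) (hy : y < 1) (hy' : y' < 1) :
    dl q y ≤ y' ↔ dl q y' ≤ y := by
  constructor
  · intro h
    have := dl_anti hq hy' h
    rwa [dl_dl hq hy] at this
  · intro h
    have := dl_anti hq hy h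
    rwa [dl_dl hq hy'] at this

theorem dl_zero {q : ℝ} : dl q 0 = 1 - q := by
  unfold dl
  simp

theorem dl_one_sub {q : ℝ} (hq : 0 < q) : dl q (1 - q) = 0 := by
  unfold dl
  have h2 : 1 - (1 - q) = q := by ring
  rw [h2, div_self hq.ne']
  ring

theorem dl_c0 {q : ℝ} (hq : 0 < q) : dl q (min 0 (1 - q)) = max 0 (1 - q) := by
  rcases le_total 0 (1 - q) with h | h
  · rw [min_eq_left h, max_eq_right h, dl_zero]
  · rw [min_eq_right h, max_eq_left h, dl_one_sub hq]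

theorem dl_c1 {q : ℝ} (hq : 0 < q) : dl q (max 0 (1 - q)) = min 0 (1 - q) := by
  rcases le_total 0 (1 - q) with h | h
  · rw [min_eq_left h, max_eq_right h, dl_one_sub hq]
  · rw [min_eq_right h, max_eq_left h, dl_zero]

theorem prod_bounds {l u a b y1 y2 : ℝ} (hl : l ≤ 0) (hu : 0 ≤ u) (ha : a ≤ 0) (hb : 0 ≤ b)
    (h1 : l ≤ y1) (h2 : y1 ≤ u) (h3 : a ≤ y2) (h4 : y2 ≤ b) :
    (∀ m, b * u ≤ m → a * l ≤ m → y1 * y2 ≤ m) ∧ (∀ m, m ≤ a * u → m ≤ b * l → m ≤ y1 * y2) := by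
  constructor
  · intro m hm1 hm2
    rcases le_total 0 y1 with h5 | h5
    · rcases le_total 0 y2 with h6 | h6
      · nlinarith [mul_nonneg (sub_nonneg.2 h2) h6, mul_nonneg (sub_nonneg.2 h4) hu]
      · nlinarith [mul_nonneg h5 (neg_nonneg.2 h6), mul_nonneg hb hu]
    · rcases le_total 0 y2 with h6 | h6
      · nlinarith [mul_nonneg (neg_nonneg.2 h5) h6, mul_nonneg hb hu]
      · nlinarith [mul_nonneg (sub_nonneg.2 h1) (neg_nonneg.2 h6),
          mul_nonneg (sub_nonneg.2 h3) (neg_nonneg.2 hl)]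
  · intro m hm1 hm2
    rcases le_total 0 y1 with h5 | h5
    · rcases le_total 0 y2 with h6 | h6
      · nlinarith [mul_nonneg h5 h6, mul_nonneg (neg_nonneg.2 ha) hu]
      · nlinarith [mul_nonneg (sub_nonneg.2 h3) h5, mul_nonneg (sub_nonneg.2 h2) (neg_nonneg.2 ha)]
    · rcases le_total 0 y2 with h6 | h6
      · nlinarith [mul_nonneg (sub_nonneg.2 h4) (neg_nonneg.2 h5),
          mul_nonneg (sub_nonneg.2 h1) hb]
      · nlinarith [mul_nonneg (neg_nonneg.2 h5) (neg_nonneg.2 h6), mul_nonneg (neg_nonneg.2 ha) hu]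

/-- conditions on a sequence of upper bounds -/
structure SeqHyp (q a b κ : ℝ) (U : ℕ → ℝ) : Prop where
  q0 : 0 < q
  q1 : q ≠ 1
  a1 : -1 < a
  a0 : a ≤ min 0 (1 - q)
  b1 : b < 1
  hb : dl q a = b
  k0 : 1 / 2 ≤ κ
  k1 : κ < 1
  kb : b ≤ κ
  Ub : ∀ k, U k ≤ b
  Uc : ∀ k, max 0 (1 - q) ≤ U k
  anti : Antitone U
  s1 : ∀ k, b * U k ≤ U (k + 1)
  s2 : ∀ k, a * dl q (U k) ≤ U (k + 1)
  s3 : ∀ k, dl q (a * U k) ≤ U (k + 1)
  s4 : ∀ k, dl q (b * dl q (U k)) ≤ U (k + 1)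
  s5 : ∀ k, (1 - κ) * max 0 (1 - q) + κ * U k ≤ U (k + 1)
  s6 : ∀ k, dl q ((1 - κ) * min 0 (1 - q) + κ * dl q (U k)) ≤ U (k + 1)

section

variable {q a b κ : ℝ} {U : ℕ → ℝ}

theorem SeqHyp.mem (h : SeqHyp q a b κ U) (k : ℕ) : U k < 1 ∧ 0 ≤ U k ∧
    dl q (U k) ≤ 0 ∧ a ≤ dl q (U k) ∧ dl q (U k) ≤ min 0 (1 - q) ∧ dl q (U k) < 1 := by
  have h1 : U k < 1 := (h.Ub k).trans_lt h.b1
  have h2 : dl q (U k) ≤ min 0 (1 - q) := by
    rw [← dl_c1 h.q0]
    exact dl_anti h.q0 h1 (h.Uc k)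
  refine ⟨h1, (le_max_left _ _).trans (h.Uc k), h2.trans (min_le_left _ _), ?_, h2,
    dl_lt_one h.q0 h1⟩
  have h3 : a < 1 := (h.a0.trans (min_le_left _ _)).trans_lt one_pos
  rw [← dl_dl h.q0 h3, h.hb]
  exact dl_anti h.q0 h.b1 (h.Ub k)

theorem SeqHyp.prod_le (h : SeqHyp q a b κ U) (k : ℕ) {y1 y2 : ℝ} (h1 : dl q (U k) ≤ y1)
    (h2 : y1 ≤ U k) (h3 : a ≤ y2) (h4 : y2 ≤ b) :
    dl q (U (k + 1)) ≤ y1 * y2 ∧ y1 * y2 ≤ U (k + 1) := by
  obtain ⟨m1, m2, m3, m4, m5, m6⟩ := h.mem k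
  have ha : a ≤ 0 := h.a0.trans (min_le_left _ _)
  have hb : 0 ≤ b := m2.trans (h.Ub k)
  obtain ⟨p1, p2⟩ := prod_bounds m3 m2 ha hb h1 h2 h3 h4
  have n1 := (h.mem (k + 1)).1
  refine ⟨p2 _ ?_ ?_, p1 _ (h.s1 k) (h.s2 k)⟩
  · have h5 : a * U k < 1 := by nlinarith
    exact (dl_le_iff h.q0 h5 n1).1 (h.s3 k)
  · have h5 : b * dl q (U k) < 1 := by nlinarith
    exact (dl_le_iff h.q0 h5 n1).1 (h.s4 k)

theorem log_add_le {s t : ℕ} (hs : 1 ≤ s) (hts : t ≤ s) :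
    Nat.log 2 (s + t) ≤ Nat.log 2 s + 1 := by
  rw [← Nat.log_mul_base (by norm_num) (by omega)]
  exact Nat.log_mono_right (by omega)

theorem SeqHyp.par_aux (h : SeqHyp q a b κ U) {s t : ℕ} (hs : 1 ≤ s) (ht : 1 ≤ t) {y1 y2 : ℝ}
    (h1 : dl q (U (Nat.log 2 s)) ≤ y1) (h2 : y1 ≤ U (Nat.log 2 s))
    (h3 : dl q (U (Nat.log 2 t)) ≤ y2) (h4 : y2 ≤ U (Nat.log 2 t)) :
    dl q (U (Nat.log 2 (s + t))) ≤ y1 * y2 ∧ y1 * y2 ≤ U (Nat.log 2 (s + t)) := by
  have key : ∀ {s t : ℕ}, 1 ≤ s → t ≤ s → ∀ {y1 y2 : ℝ}, dl q (U (Nat.log 2 s)) ≤ y1 →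
      y1 ≤ U (Nat.log 2 s) → dl q (U (Nat.log 2 t)) ≤ y2 → y2 ≤ U (Nat.log 2 t) →
      dl q (U (Nat.log 2 (s + t))) ≤ y1 * y2 ∧ y1 * y2 ≤ U (Nat.log 2 (s + t)) := by
    intro s t hs hts y1 y2 h1 h2 h3 h4
    have h5 := h.prod_le (Nat.log 2 s) h1 h2 ((h.mem (Nat.log 2 t)).2.2.2.1.trans h3)
      (h4.trans (h.Ub _))
    have h6 : U (Nat.log 2 s + 1) ≤ U (Nat.log 2 (s + t)) := h.anti (log_add_le hs hts)
    exact ⟨(dl_anti h.q0 (h.mem _).1 h6).trans h5.1, h5.2.trans h6⟩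
  rcases le_total t s with h5 | h5
  · exact key hs h5 h1 h2 h3 h4
  · have := key ht h5 h3 h4 h1 h2
    rw [add_comm s t, mul_comm y1 y2]
    exact this

theorem ser_eq {q y1 y2 : ℝ} (hq : 0 < q) (h1 : y1 < 1) (h2 : y2 < 1)
    (h3 : q + (y1 - 1) + (y2 - 1) < 0) :
    -(q + (y1 - 1) + (y2 - 1) + (y1 - 1) * (y2 - 1)) =
      dl q (dl q y1 * dl q y2) * (-(q + (y1 - 1) + (y2 - 1))) := by
  unfold dl
  have e1 : 1 - y1 ≠ 0 := by
    have : 0 < 1 - y1 := by linarith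
    exact this.ne'
  have e2 : 1 - y2 ≠ 0 := by
    have : 0 < 1 - y2 := by linarith
    exact this.ne'
  have e3 : (1 - y1) + (1 - y2) - q ≠ 0 := by
    have : 0 < (1 - y1) + (1 - y2) - q := by linarith
    exact this.ne'
  have e4 : 1 - (1 - q / (1 - y1)) * (1 - q / (1 - y2)) =
      q * ((1 - y1) + (1 - y2) - q) / ((1 - y1) * (1 - y2)) := by
    field_simp
    ring
  rw [e4]
  have e5 : q / (q * ((1 - y1) + (1 - y2) - q) / ((1 - y1) * (1 - y2))) =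
      (1 - y1) * (1 - y2) / ((1 - y1) + (1 - y2) - q) := by
    field_simp
  rw [e5]
  have e6 : -(q + (y1 - 1) + (y2 - 1)) = (1 - y1) + (1 - y2) - q := by ring
  have e7 : (1 - (1 - y1) * (1 - y2) / ((1 - y1) + (1 - y2) - q)) * ((1 - y1) + (1 - y2) - q) =
      (1 - y1) + (1 - y2) - q - (1 - y1) * (1 - y2) := by
    rw [sub_mul, div_mul_cancel₀ _ e3, one_mul]
  rw [e6, e7]
  ring

theorem SeqHyp.khyp (h : SeqHyp q a b κ U) :
    KHyp q κ (fun n => dl q (U (Nat.log 2 n))) (fun n => U (Nat.log 2 n)) where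
  q0 := h.q0
  q1 := h.q1
  k0 := h.k0
  k1 := h.k1.le
  hik := fun n => (h.Ub _).trans h.kb
  hiq := by
    intro n
    refine (h.Ub _).trans_lt ?_
    rw [← h.hb]
    unfold dl
    have h1 : q / 2 < q / (1 - a) := by
      apply div_lt_div_of_pos_left h.q0 _ (by linarith [h.a1])
      have := h.a0.trans (min_le_left _ _)
      linarith
    linarith
  lo1 := fun n => h.a1.le.trans (h.mem _).2.2.2.1
  hic := fun n => h.Uc _
  loc := fun n => (h.mem _).2.2.2.2.1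
  stephi := by
    intro n n' h1 h2 h3
    have h4 : U (Nat.log 2 n' + 1) ≤ U (Nat.log 2 n) := by
      apply h.anti
      rw [← Nat.log_mul_base (by norm_num) (by omega)]
      exact Nat.log_mono_right (by omega)
    exact (h.s5 _).trans h4
  steplo := by
    intro n n' h1 h2 h3
    have h4 : U (Nat.log 2 n' + 1) ≤ U (Nat.log 2 n) := by
      apply h.anti
      rw [← Nat.log_mul_base (by norm_num) (by omega)]
      exact Nat.log_mono_right (by omega)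
    obtain ⟨m1, m2, m3, m4, m5, m6⟩ := h.mem (Nat.log 2 n')
    have h5 : (1 - κ) * min 0 (1 - q) + κ * dl q (U (Nat.log 2 n')) < 1 := by
      have h6 : (1 - κ) * min 0 (1 - q) ≤ 0 :=
        mul_nonpos_of_nonneg_of_nonpos (by linarith [h.k1]) (min_le_left _ _)
      have h7 : κ * dl q (U (Nat.log 2 n')) ≤ 0 :=
        mul_nonpos_of_nonneg_of_nonpos (by linarith [h.k0]) m3
      linarith
    exact (dl_le_iff h.q0 h5 (h.mem _).1).1 ((h.s6 _).trans h4)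
  par := fun s t hs ht y1 y2 h1 h2 h3 h4 => h.par_aux hs ht h1 h2 h3 h4
  ser := by
    intro s t hs ht y1 y2 h1 h2 h3 h4
    have hU1 := h.mem (Nat.log 2 s)
    have hU2 := h.mem (Nat.log 2 t)
    have hU3 := h.mem (Nat.log 2 (s + t))
    have g1 : y1 < 1 := h2.trans_lt hU1.1
    have g2 : y2 < 1 := h4.trans_lt hU2.1
    have hb2 : b < 1 - q / 2 := by
      rw [← h.hb]
      unfold dl
      have h1 : q / 2 < q / (1 - a) := by
        apply div_lt_div_of_pos_left h.q0 _ (by linarith [h.a1])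
        have := h.a0.trans (min_le_left _ _)
        linarith
      linarith
    have hneg : q + (y1 - 1) + (y2 - 1) < 0 := by
      have := h.Ub (Nat.log 2 s)
      have := h.Ub (Nat.log 2 t)
      linarith
    have d1 : dl q (U (Nat.log 2 s)) ≤ dl q y1 := dl_anti h.q0 hU1.1 h2
    have d2 : dl q y1 ≤ U (Nat.log 2 s) := (dl_le_iff h.q0 hU1.1 g1).1 h1
    have d3 : dl q (U (Nat.log 2 t)) ≤ dl q y2 := dl_anti h.q0 hU2.1 h4
    have d4 : dl q y2 ≤ U (Nat.log 2 t) := (dl_le_iff h.q0 hU2.1 g2).1 h3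
    have d5 := h.par_aux hs ht d1 d2 d3 d4
    have hp1 : dl q y1 * dl q y2 < 1 := d5.2.trans_lt hU3.1
    have d6 : dl q (U (Nat.log 2 (s + t))) ≤ dl q (dl q y1 * dl q y2) := dl_anti h.q0 hU3.1 d5.2
    have d7 : dl q (dl q y1 * dl q y2) ≤ U (Nat.log 2 (s + t)) :=
      (dl_le_iff h.q0 hU3.1 hp1).1 d5.1
    have hpos : 0 ≤ -(q + (y1 - 1) + (y2 - 1)) := by linarith
    rw [ser_eq h.q0 g1 g2 hneg]
    exact ⟨mul_le_mul_of_nonneg_right d6 hpos, mul_le_mul_of_nonneg_right d7 hpos⟩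

end

end Pool.Agent.H257R2.Tutte
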