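import Pool.Agent.H257R2.Tutte.Sum

set_option autoImplicit false

namespace Pool.Agent.H257R2.Tutte

open Finset

variable {E : Type} [DecidableEq E]

theorem base2 {q : ℝ} (hq0 : q ≠ 0) (hq1 : q ≠ 1) {r : Finset E → ℤ} (hr : IsRk r) (y : E → ℝ)
    {e f : E} (hef : e ≠ f) (he : r {e} = 1) (hf : r {f} = 1) (h : r {e, f} = 1) :
    Av q r y {e, f} e = 1 ∧ Bv q r y {e, f} e = y f := by
  have h1 : (1 : ℝ) - q ≠ 0 := sub_ne_zero.2 (Ne.symm hq1)
  have hT : ({e, f} : Finset E).erase e = insert f ∅ := by
    rw [erase_insert (by rw [mem_singleton]; exact hef)]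
    rfl
  unfold Av Bv
  rw [hT, H_insert q r y (notMem_empty f), H_insert q r y (notMem_empty f), H_empty, H_empty,
    H_empty, H_empty, hr.empty, he, h, insert_empty_eq, hf, pair_comm f e, h]
  rw [neg_zero, zpow_zero, zpow_one, zpow_neg_one]
  constructor
  · field_simp
    ring
  · field_simp
    ring

theorem base3_par {q : ℝ} (hq0 : q ≠ 0) (hq1 : q ≠ 1) {r : Finset E → ℤ} (hr : IsRk r)
    (y : E → ℝ) {e f g : E} (hef : e ≠ f) (heg : e ≠ g) (hfg : f ≠ g)
    (h : r {e, f, g} = 1) (he : r {e} = 1) (hf : r {f} = 1) (hg : r {g} = 1) :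
    Av q r y {e, f, g} e = 1 ∧ Bv q r y {e, f, g} e = y f * y g := by
  have h1 : (1 : ℝ) - q ≠ 0 := sub_ne_zero.2 (Ne.symm hq1)
  have hT : ({e, f, g} : Finset E).erase e = insert f (insert g ∅) := by
    rw [erase_insert (by rw [mem_insert, mem_singleton]; tauto)]
    rfl
  have hfT : f ∉ insert g (∅ : Finset E) := by
    rw [insert_empty_eq, mem_singleton]
    exact hfg
  have all : ∀ A : Finset E, A ⊆ {e, f, g} → A.Nonempty → r A = 1 := by
    intro A hA hne
    obtain ⟨x, hx⟩ := hne
    have h2 := hr.mono hA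
    have h3 := hr.mono (singleton_subset_iff.2 hx)
    have h4 : r {x} = 1 := by
      have h5 := hA hx
      rw [mem_insert, mem_insert, mem_singleton] at h5
      rcases h5 with rfl | rfl | rfl
      · exact he
      · exact hf
      · exact hg
    linarith
  unfold Av Bv
  rw [hT, H_insert q r y hfT, H_insert q r y hfT, H_insert q r y (notMem_empty g),
    H_insert q r y (notMem_empty g), H_insert q r y (notMem_empty g),
    H_insert q r y (notMem_empty g), H_empty, H_empty, H_empty, H_empty, H_empty, H_empty,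
    H_empty, H_empty, hr.empty, h]
  have s1 : r (insert g ∅) = 1 := all _ (by simp) (insert_nonempty _ _)
  have s2 : r (insert f ∅) = 1 := all _ (by simp) (insert_nonempty _ _)
  have s3 : r (insert g (insert f ∅)) = 1 := all _ (by
    intro x
    simp only [mem_insert, mem_singleton, notMem_empty, or_false]
    tauto) (insert_nonempty _ _)
  have s4 : r (insert g {e}) = 1 := all _ (by
    intro x
    simp only [mem_insert, mem_singleton]
    tauto) (insert_nonempty _ _)
  have s5 : r (insert f {e}) = 1 := all _ (by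
    intro x
    simp only [mem_insert, mem_singleton]
    tauto) (insert_nonempty _ _)
  have s6 : r (insert g (insert f {e})) = 1 := all _ (by
    intro x
    simp only [mem_insert, mem_singleton]
    tauto) (insert_nonempty _ _)
  rw [s1, s2, s3, s4, s5, s6, he]
  rw [neg_zero, zpow_zero, zpow_one, zpow_neg_one]
  constructor
  · field_simp
    ring
  · field_simp
    ring

theorem base3_ser {q : ℝ} (hq0 : q ≠ 0) (hq1 : q ≠ 1) {r : Finset E → ℤ} (hr : IsRk r)
    (y : E → ℝ) {e f g : E} (hef : e ≠ f) (heg : e ≠ g) (hfg : f ≠ g)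
    (h : r {e, f, g} = 2) (he : r {e} = 1) (hf : r {f} = 1) (hg : r {g} = 1)
    (h12 : r {e, f} = 2) (h13 : r {e, g} = 2) (h23 : r {f, g} = 2) :
    Av q r y {e, f, g} e = -(q + (y f - 1) + (y g - 1)) ∧
    Bv q r y {e, f, g} e = -(q + (y f - 1) + (y g - 1) + (y f - 1) * (y g - 1)) := by
  have h1 : (1 : ℝ) - q ≠ 0 := sub_ne_zero.2 (Ne.symm hq1)
  have hT : ({e, f, g} : Finset E).erase e = insert f (insert g ∅) := by
    rw [erase_insert (by rw [mem_insert, mem_singleton]; tauto)]
    rfl
  have hfT : f ∉ insert g (∅ : Finset E) := by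
    rw [insert_empty_eq, mem_singleton]
    exact hfg
  unfold Av Bv
  rw [hT, H_insert q r y hfT, H_insert q r y hfT, H_insert q r y (notMem_empty g),
    H_insert q r y (notMem_empty g), H_insert q r y (notMem_empty g),
    H_insert q r y (notMem_empty g), H_empty, H_empty, H_empty, H_empty, H_empty, H_empty,
    H_empty, H_empty, hr.empty, h]
  have s1 : r (insert g ∅) = 1 := hg
  have s2 : r (insert f ∅) = 1 := hf
  have s3 : r (insert g (insert f ∅)) = 2 := by
    rw [insert_empty_eq, pair_comm]
    exact h23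
  have s4 : r (insert g {e}) = 2 := by
    rw [pair_comm]
    exact h13
  have s5 : r (insert f {e}) = 2 := by
    rw [pair_comm]
    exact h12
  have s6 : r (insert g (insert f {e})) = 2 := by
    rw [← h]
    congr 1
    ext x
    simp only [mem_insert, mem_singleton]
    tauto
  rw [s1, s2, s3, s4, s5, s6, he]
  rw [neg_zero, zpow_zero, zpow_neg_one]
  have e1 : (-q) ^ (2 : ℤ) = q ^ 2 := by
    rw [show (2 : ℤ) = ((2 : ℕ) : ℤ) by norm_num, zpow_natCast]
    ring
  have e2 : q ^ (-2 : ℤ) = (q ^ 2)⁻¹ := by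
    rw [zpow_neg, show (2 : ℤ) = ((2 : ℕ) : ℤ) by norm_num, zpow_natCast]
  rw [e1, e2]
  constructor
  · field_simp
    ring
  · field_simp
    ring

/-! ### 2-sums -/

section

variable {q : ℝ} {r : Finset E → ℤ} {y : E → ℝ} {X Y : Finset E} {e x0 : E}

theorem two_sum_key (hq0 : q ≠ 0) (hq1 : q ≠ 1) (hr : IsRk r) (hXY : Disjoint X Y)
    (hlam : r X + r Y = r (X ∪ Y) + 1) (heX : e ∉ X) (hx0 : x0 ∈ X)
    (hA : Av q (part r X Y e) y (insert e X) e ≠ 0) {C : Finset E} (hC : C ⊆ Y) :
    H q r y X C = (-q) ^ (1 - r X) * Av q (part r X Y e) y (insert e X) e *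
      (q ^ (-(part r Y X x0 C)) +
        (Bv q (part r X Y e) y (insert e X) e / Av q (part r X Y e) y (insert e X) e - 1) *
          q ^ (-(part r Y X x0 (insert x0 C)))) := by
  have h1 : (1 : ℝ) - q ≠ 0 := sub_ne_zero.2 (Ne.symm hq1)
  have hnq : (-q : ℝ) ≠ 0 := neg_ne_zero.2 hq0
  have hx0Y : x0 ∉ Y := fun h => disjoint_left.1 hXY hx0 h
  -- the two basic sums
  have hd : H q (part r X Y e) y X ∅ = H q r y X ∅ := by
    unfold H
    apply sum_congr rfl
    intro B hB
    rw [mem_powerset] at hB
    rw [union_empty, part_of_subset heX hB]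
  have hr1 : part r X Y e (insert e X) = r X := by
    rw [part_of_insert heX (Subset.refl X)]
    linarith
  have hcon : ∀ B ∈ X.powerset, part r X Y e (B ∪ {e}) = r (B ∪ Y) - r Y + 1 := by
    intro B hB
    rw [mem_powerset] at hB
    rw [union_comm, ← insert_eq, part_of_insert heX hB]
  set A1 := Av q (part r X Y e) y (insert e X) e with hA1
  set B1 := Bv q (part r X Y e) y (insert e X) e with hB1
  set d1 := H q r y X ∅ with hd1
  set c1 := H q (part r X Y e) y X {e} with hc1
  have eA1 : A1 = (-q) ^ (r X) * (d1 - c1) / (1 - q) := by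
    rw [hA1]
    unfold Av
    rw [erase_insert heX, hr1, hd]
  have eB1 : B1 = -((-q) ^ (r X) * c1) := by
    rw [hB1]
    unfold Bv
    rw [erase_insert heX, hr1]
  have hP : (-q) ^ (1 - r X) * (-q) ^ (r X) = -q := by
    rw [← zpow_add₀ hnq, sub_add_cancel, zpow_one]
  -- consequences
  have k1 : (-q) ^ (1 - r X) * A1 = -q * (d1 - c1) / (1 - q) := by
    rw [eA1, ← mul_div_assoc, ← mul_assoc, hP]
  have k2 : (-q) ^ (1 - r X) * A1 * (B1 / A1) = q * c1 := by
    rw [mul_assoc, mul_div_cancel₀ _ hA, eB1, mul_neg, ← mul_assoc, hP]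
    ring
  have k3 : (-q) ^ (1 - r X) * A1 * (1 + (B1 / A1 - 1) * q⁻¹) = d1 := by
    have : (-q) ^ (1 - r X) * A1 * (1 + (B1 / A1 - 1) * q⁻¹) =
        (-q) ^ (1 - r X) * A1 * (1 - q⁻¹) + ((-q) ^ (1 - r X) * A1 * (B1 / A1)) * q⁻¹ := by ring
    rw [this, k2, k1]
    field_simp
    ring
  have hpC : part r Y X x0 C = r C := part_of_subset hx0Y hC
  have hpC2 : part r Y X x0 (insert x0 C) = r (C ∪ X) - r X + 1 := part_of_insert hx0Y hC
  rw [hpC, hpC2]
  -- the two cases
  have hb1 : r C + r X ≤ r (C ∪ X) + 1 := by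
    have h2 := hr.conn_mono hC hXY.symm
    rw [union_comm Y X] at h2
    linarith
  have hb2 : r (C ∪ X) ≤ r C + r X := hr.union_le C X
  rcases (show r (C ∪ X) = r C + r X ∨ r (C ∪ X) = r C + r X - 1 by omega) with h2 | h2
  · -- the element is not in the closure
    have hsum : H q r y X C = q ^ (-(r C)) * d1 := by
      rw [hd1]
      unfold H
      rw [mul_sum]
      apply sum_congr rfl
      intro B hB
      rw [mem_powerset] at hB
      have h3 := hr.conn_mono hB (Y := C) (hXY.mono_right hC)
      have h4 := hr.union_le B C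
      have h5 : r (B ∪ C) = r C + r B := by
        rw [union_comm X C, h2] at h3
        linarith
      rw [h5, union_empty, neg_add, zpow_add₀ hq0]
      ring
    rw [hsum, h2, show -(r C + r X - r X + 1) = -(r C) + -1 by ring, zpow_add₀ hq0,
      zpow_neg_one, ← k3]
    ring
  · have hsum : H q r y X C = q ^ (-(r C)) * (q * c1) := by
      rw [hc1]
      unfold H
      rw [mul_sum, mul_sum]
      apply sum_congr rfl
      intro B hB
      rw [hcon B hB]
      rw [mem_powerset] at hB
      -- lower bound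
      have h3 := hr.submod (B ∪ C) Y
      have e1 : (B ∪ C) ∪ Y = B ∪ Y := by
        rw [union_assoc, union_eq_right.2 hC]
      have e2 : (B ∪ C) ∩ Y = C := by
        rw [union_inter_distrib_right, inter_eq_left.2 hC,
          disjoint_iff_inter_eq_empty.1 (hXY.mono_left hB), empty_union]
      rw [e1, e2] at h3
      have h4 := hr.submod (B ∪ Y) (C ∪ X)
      have e3 : (B ∪ Y) ∪ (C ∪ X) = X ∪ Y := by
        ext x
        simp only [mem_union]
        constructor
        · rintro ((h | h) | (h | h))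
          · exact Or.inl (hB h)
          · exact Or.inr h
          · exact Or.inr (hC h)
          · exact Or.inl h
        · rintro (h | h)
          · exact Or.inr (Or.inr h)
          · exact Or.inl (Or.inr h)
      have e4 : (B ∪ Y) ∩ (C ∪ X) = B ∪ C := by
        ext x
        simp only [mem_union, mem_inter]
        constructor
        · rintro ⟨h | h, h' | h'⟩
          · exact Or.inl h
          · exact Or.inl h
          · exact Or.inr h'
          · exact absurd h (disjoint_left.1 hXY h')
        · rintro (h | h)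
          · exact ⟨Or.inl h, Or.inr (hB h)⟩
          · exact ⟨Or.inr (hC h), Or.inl h⟩
      rw [e3, e4] at h4
      have h5 : r (B ∪ C) = r C + (r (B ∪ Y) - r Y + 1) - 1 := by linarith
      rw [h5, show -(r C + (r (B ∪ Y) - r Y + 1) - 1) =
        -(r C) + (1 + -(r (B ∪ Y) - r Y + 1)) by ring, zpow_add₀ hq0, zpow_add₀ hq0, zpow_one]
      ring
    rw [hsum, h2, show -(r C + r X - 1 - r X + 1) = -(r C) by ring, ← k2]
    ring

theorem two_sum_H (hq0 : q ≠ 0) (hq1 : q ≠ 1) (hr : IsRk r) (hXY : Disjoint X Y)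
    (hlam : r X + r Y = r (X ∪ Y) + 1) (heX : e ∉ X) (hx0 : x0 ∈ X)
    (hA : Av q (part r X Y e) y (insert e X) e ≠ 0) (T : Finset E) (hT : T ⊆ Y) :
    ∀ C, C ⊆ Y →
    H q r y (X ∪ T) C = (-q) ^ (1 - r X) * Av q (part r X Y e) y (insert e X) e *
      H q (part r Y X x0) (Function.update y x0
        (Bv q (part r X Y e) y (insert e X) e / Av q (part r X Y e) y (insert e X) e))
        (insert x0 T) C := by
  have hx0Y : x0 ∉ Y := fun h => disjoint_left.1 hXY hx0 h
  induction T using Finset.induction_on with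
  | empty =>
    intro C hC
    rw [union_empty, two_sum_key hq0 hq1 hr hXY hlam heX hx0 hA hC,
      H_insert _ _ _ (notMem_empty x0), H_empty, H_empty, Function.update_self]
  | insert g T hg ih =>
    intro C hC
    have hT' : T ⊆ Y := (subset_insert g T).trans hT
    have hgY : g ∈ Y := hT (mem_insert_self g T)
    have hgX : g ∉ X := fun h => disjoint_left.1 hXY h hgY
    have hgx : g ≠ x0 := fun h => hx0Y (h ▸ hgY)
    have h1 : g ∉ X ∪ T := by
      rw [mem_union]
      tauto
    have h2 : g ∉ insert x0 T := by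
      rw [mem_insert]
      tauto
    rw [union_insert, H_insert _ _ _ h1, ih hT' C hC,
      ih hT' (insert g C) (insert_subset hgY hC), Finset.insert_comm x0 g T, H_insert _ _ _ h2,
      Function.update_of_ne hgx]
    ring

theorem two_sum (hq0 : q ≠ 0) (hq1 : q ≠ 1) (hr : IsRk r) (hXY : Disjoint X Y)
    (hlam : r X + r Y = r (X ∪ Y) + 1) (heY : e ∈ Y) (hx0 : x0 ∈ X)
    (hA : Av q (part r X Y e) y (insert e X) e ≠ 0) :
    Av q r y (X ∪ Y) e = Av q (part r X Y e) y (insert e X) e *
      Av q (part r Y X x0) (Function.update y x0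
        (Bv q (part r X Y e) y (insert e X) e / Av q (part r X Y e) y (insert e X) e))
        (insert x0 Y) e ∧
    Bv q r y (X ∪ Y) e = Av q (part r X Y e) y (insert e X) e *
      Bv q (part r Y X x0) (Function.update y x0
        (Bv q (part r X Y e) y (insert e X) e / Av q (part r X Y e) y (insert e X) e))
        (insert x0 Y) e := by
  have heX : e ∉ X := fun h => disjoint_left.1 hXY h heY
  have hx0Y : x0 ∉ Y := fun h => disjoint_left.1 hXY hx0 h
  have hnq : (-q : ℝ) ≠ 0 := neg_ne_zero.2 hq0
  have hex : e ≠ x0 := fun h => hx0Y (h ▸ heY)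
  have e1 : (X ∪ Y).erase e = X ∪ Y.erase e := by
    rw [erase_union_distrib, erase_eq_of_notMem heX]
  have e2 : (insert x0 Y).erase e = insert x0 (Y.erase e) := erase_insert_of_ne hex.symm
  have e3 : part r Y X x0 (insert x0 Y) = r Y := by
    rw [part_of_insert hx0Y (Subset.refl Y), union_comm Y X]
    linarith
  have hH := two_sum_H (y := y) hq0 hq1 hr hXY hlam heX hx0 hA (Y.erase e) (erase_subset e Y)
  have h1 := hH ∅ (empty_subset Y)
  have h2 := hH {e} (singleton_subset_iff.2 heY)
  have hP : (-q) ^ (r (X ∪ Y)) * (-q) ^ (1 - r X) = (-q) ^ (r Y) := by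
    rw [← zpow_add₀ hnq]
    congr 1
    linarith
  set A1 := Av q (part r X Y e) y (insert e X) e
  set B1 := Bv q (part r X Y e) y (insert e X) e
  constructor
  · conv_lhs => unfold Av
    conv_rhs =>
      rhs
      unfold Av
    rw [e1, e2, e3, h1, h2, ← hP]
    ring
  · conv_lhs => unfold Bv
    conv_rhs =>
      rhs
      unfold Bv
    rw [e1, e2, e3, h2, ← hP]
    ring

end

end Pool.Agent.H257R2.Tutte
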