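import Mathlib

set_option autoImplicit false

/-!
Definitions used in the statement about the multivariate Tutte polynomial of 2-connected graphs.
A multigraph with vertex type `V` and edge type `E` is given by a map `ends : E → Sym2 V`.
-/

namespace Pool.Agent.H257R2.Tutte

variable {V E : Type}

/-- Some edge of `A` joins `x` and `y`. -/
def JoinedBy (ends : E → Sym2 V) (A : Finset E) (x y : V) : Prop := ∃ e ∈ A, ends e = s(x, y)

/-- `k(A)`: the number of connected components of the spanning subgraph `(V, A)`, that is, the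
number of classes of the equivalence relation on `V` generated by `JoinedBy ends A`. -/
noncomputable def numComp (ends : E → Sym2 V) (A : Finset E) : ℕ :=
  Nat.card (Quot (JoinedBy ends A))

/-- The multivariate Tutte polynomial `Z(G; q, v) = ∑_{A ⊆ E} q ^ k(A) ∏_{e ∈ A} v e`. -/
noncomputable def tutteZ [Fintype E] (ends : E → Sym2 V) (q : ℝ) (v : E → ℝ) : ℝ :=
  ∑ A : Finset E, q ^ numComp ends A * ∏ e ∈ A, v e

/-- The multigraph is 2-connected: no loops; any two vertices are joined by a walk; for every vertex
`w`, any two other vertices are joined by a walk avoiding `w` (no cut vertex); at least two edges. -/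
structure TwoConnected [Fintype E] (ends : E → Sym2 V) : Prop where
  loopless : ∀ e, ¬ (ends e).IsDiag
  connected : ∀ x y : V, Relation.ReflTransGen (fun a b => ∃ e, ends e = s(a, b)) x y
  noCutVertex : ∀ w x y : V, x ≠ w → y ≠ w →
    Relation.ReflTransGen (fun a b => a ≠ w ∧ b ≠ w ∧ ∃ e, ends e = s(a, b)) x y
  twoEdges : 2 ≤ Fintype.card E

/-- `v` is the middle one of three real roots of `v³ - 2 q v - q² = 0`. -/
def IsMiddleRoot (q v : ℝ) : Prop :=
  v ^ 3 - 2 * q * v - q ^ 2 = 0 ∧ (∃ v₁ < v, v₁ ^ 3 - 2 * q * v₁ - q ^ 2 = 0) ∧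
    ∃ v₃ > v, v₃ ^ 3 - 2 * q * v₃ - q ^ 2 = 0

end Pool.Agent.H257R2.Tutte
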