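import Pool.Agent.H257R2.Tutte.Rank
import Pool.Agent.H257R2.Tutte.Defs

set_option autoImplicit false

/-!
The rank function of a multigraph, and 2-connected multigraphs have connected cycle matroids.
-/

namespace Pool.Agent.H257R2.Tutte

section glue

variable {P : Type}

/-- the equivalence relation generated by `r` and the pair `(p, q)` -/
def addPair (r : Setoid P) (p q : P) : Setoid P where
  r x y := r x y ∨ (r x p ∧ r q y) ∨ (r x q ∧ r p y)
  iseqv := by
    refine ⟨fun x => Or.inl (r.refl x), ?_, ?_⟩
    · rintro x y (h | ⟨h1, h2⟩ | ⟨h1, h2⟩)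
      · exact Or.inl (r.symm h)
      · exact Or.inr (Or.inr ⟨r.symm h2, r.symm h1⟩)
      · exact Or.inr (Or.inl ⟨r.symm h2, r.symm h1⟩)
    · rintro x y z (h | ⟨h1, h2⟩ | ⟨h1, h2⟩) (k | ⟨k1, k2⟩ | ⟨k1, k2⟩)
      · exact Or.inl (r.trans h k)
      · exact Or.inr (Or.inl ⟨r.trans h k1, k2⟩)
      · exact Or.inr (Or.inr ⟨r.trans h k1, k2⟩)
      · exact Or.inr (Or.inl ⟨h1, r.trans h2 k⟩)
      · exact Or.inr (Or.inl ⟨h1, k2⟩)
      · exact Or.inl (r.trans h1 k2)
      · exact Or.inr (Or.inr ⟨h1, r.trans h2 k⟩)
      · exact Or.inl (r.trans h1 k2)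
      · exact Or.inr (Or.inr ⟨h1, k2⟩)

theorem addPair_self (r : Setoid P) {p q : P} (h : r p q) : addPair r p q = r := by
  ext x y
  change (r x y ∨ (r x p ∧ r q y) ∨ (r x q ∧ r p y)) ↔ r x y
  constructor
  · rintro (h1 | ⟨h1, h2⟩ | ⟨h1, h2⟩)
    · exact h1
    · exact r.trans h1 (r.trans h h2)
    · exact r.trans h1 (r.trans (r.symm h) h2)
  · exact Or.inl

theorem card_addPair [Finite P] (r : Setoid P) {p q : P} (h : ¬ r p q) :
    Nat.card (Quotient (addPair r p q)) + 1 = Nat.card (Quotient r) := by
  classical
  have hfin : Finite (Quotient r) := inferInstance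
  let g : {x : Quotient r // x ≠ Quotient.mk r q} → Quotient (addPair r p q) := fun x =>
    Quotient.lift (s := r) (fun a => Quotient.mk (addPair r p q) a)
      (fun a b hab => Quotient.sound (Or.inl hab)) x.1
  have hg : Function.Bijective g := by
    constructor
    · rintro ⟨x, hx⟩ ⟨y, hy⟩ hxy
      induction x using Quotient.inductionOn with | _ a =>
      induction y using Quotient.inductionOn with | _ b =>
      have h1 : addPair r p q a b := Quotient.exact hxy
      rw [Subtype.mk.injEq]
      rcases h1 with h1 | ⟨h1, h2⟩ | ⟨h1, h2⟩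
      · exact Quotient.sound h1
      · exact absurd (Quotient.sound (r.symm h2)) hy
      · exact absurd (Quotient.sound h1) hx
    · intro y
      induction y using Quotient.inductionOn with | _ a =>
      by_cases ha : r a q
      · refine ⟨⟨Quotient.mk r p, fun hp => h (Quotient.exact hp)⟩, ?_⟩
        exact Quotient.sound (Or.inr (Or.inl ⟨r.refl p, r.symm ha⟩))
      · exact ⟨⟨Quotient.mk r a, fun hp => ha (Quotient.exact hp)⟩, rfl⟩
  rw [← Nat.card_congr (Equiv.ofBijective g hg)]
  have : Fintype (Quotient r) := Fintype.ofFinite _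
  rw [Nat.card_eq_fintype_card, Nat.card_eq_fintype_card, Fintype.card_subtype_compl,
    Fintype.card_subtype_eq]
  have : 0 < Fintype.card (Quotient r) := Fintype.card_pos_iff.2 ⟨Quotient.mk r q⟩
  omega

end glue

open Finset

/-- a function with monotone marginals is a rank function -/
theorem isRk_of_marginal {E : Type} [DecidableEq E] {f : Finset E → ℤ} (h0 : f ∅ = 0)
    (h1 : ∀ e A, f (insert e A) = f A ∨ f (insert e A) = f A + 1)
    (h2 : ∀ e A B, A ⊆ B → f (insert e A) = f A → f (insert e B) = f B) : IsRk f := by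
  have hm : ∀ e A B, A ⊆ B → f (insert e B) - f B ≤ f (insert e A) - f A := by
    intro e A B hAB
    rcases h1 e A with h3 | h3
    · rw [h3, h2 e A B hAB h3]
      linarith
    · rcases h1 e B with h4 | h4 <;> rw [h3, h4] <;> linarith
  have hu : ∀ (C A B : Finset E), A ⊆ B → f (C ∪ B) - f B ≤ f (C ∪ A) - f A := by
    intro C
    induction C using Finset.induction_on with
    | empty =>
      intro A B _
      simp
    | insert e C _ ih =>
      intro A B hAB
      rw [insert_union, insert_union]
      have h3 := ih A B hAB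
      have h4 := hm e (C ∪ A) (C ∪ B) (union_subset_union_right hAB)
      linarith
  have hmono1 : ∀ (C A : Finset E), f A ≤ f (C ∪ A) := by
    intro C
    induction C using Finset.induction_on with
    | empty =>
      intro A
      simp
    | insert e C _ ih =>
      intro A
      rw [insert_union]
      have h3 := ih A
      rcases h1 e (C ∪ A) with h4 | h4 <;> rw [h4] <;> linarith
  refine ⟨h0, ?_, ?_, ?_⟩
  · intro A B hAB
    have := hmono1 B A
    rwa [union_eq_left.2 hAB] at this
  · intro e
    have := h1 e ∅
    rw [h0, insert_empty_eq] at this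
    omega
  · intro A B
    have h3 := hu B (A ∩ B) A inter_subset_left
    rw [union_eq_left.2 (inter_subset_right : A ∩ B ⊆ B)] at h3
    rw [union_comm A B]
    linarith

section graph

variable {V E : Type}

/-- the components as a setoid -/
def comp (ends : E → Sym2 V) (A : Finset E) : Setoid V := Relation.EqvGen.setoid (JoinedBy ends A)

theorem comp_of_joined {ends : E → Sym2 V} {A : Finset E} {x y : V} (h : JoinedBy ends A x y) :
    comp ends A x y := Relation.EqvGen.rel _ _ h

theorem comp_le {ends : E → Sym2 V} {A : Finset E} (T : Setoid V)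
    (h : ∀ x y, JoinedBy ends A x y → T x y) {x y : V} (hxy : comp ends A x y) : T x y := by
  have hxy' : Relation.EqvGen (JoinedBy ends A) x y := hxy
  induction hxy' with
  | rel a b hab => exact h a b hab
  | refl a => exact T.refl a
  | symm a b _ ih => exact T.symm (ih ‹_›)
  | trans a b c _ _ ih1 ih2 => exact T.trans (ih1 ‹_›) (ih2 ‹_›)

theorem comp_mono {ends : E → Sym2 V} {A B : Finset E} (h : A ⊆ B) {x y : V}
    (hxy : comp ends A x y) : comp ends B x y :=
  comp_le _ (fun a b hab => by
    obtain ⟨e, he, h1⟩ := hab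
    exact comp_of_joined ⟨e, h he, h1⟩) hxy

theorem numComp_eq (ends : E → Sym2 V) (A : Finset E) :
    numComp ends A = Nat.card (Quotient (comp ends A)) := by
  refine Nat.card_congr
    { toFun := Quot.lift (fun x => Quotient.mk (comp ends A) x)
        (fun a b h => Quotient.sound (comp_of_joined h))
      invFun := Quotient.lift (fun x => Quot.mk _ x) (fun a b h => Quot.eqvGen_sound h)
      left_inv := ?_
      right_inv := ?_ }
  · intro x
    induction x using Quot.ind
    rfl
  · intro x
    induction x using Quotient.ind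
    rfl

variable [DecidableEq E]

theorem comp_insert {ends : E → Sym2 V} (A : Finset E) {e : E} {x y : V} (he : ends e = s(x, y)) :
    comp ends (insert e A) = addPair (comp ends A) x y := by
  ext a b
  constructor
  · intro h
    refine comp_le (addPair (comp ends A) x y) ?_ h
    rintro a b ⟨e', he', h1⟩
    rw [mem_insert] at he'
    rcases he' with rfl | he'
    · rw [he, Sym2.eq_iff] at h1
      rcases h1 with ⟨rfl, rfl⟩ | ⟨rfl, rfl⟩
      · exact Or.inr (Or.inl ⟨(comp ends A).refl _, (comp ends A).refl _⟩)
      · exact Or.inr (Or.inr ⟨(comp ends A).refl _, (comp ends A).refl _⟩)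
    · exact Or.inl (comp_of_joined ⟨e', he', h1⟩)
  · have hxy : comp ends (insert e A) x y := comp_of_joined ⟨e, mem_insert_self e A, he⟩
    have hm : ∀ {a b : V}, comp ends A a b → comp ends (insert e A) a b :=
      fun h => comp_mono (subset_insert e A) h
    rintro (h | ⟨h1, h2⟩ | ⟨h1, h2⟩)
    · exact hm h
    · exact (comp ends (insert e A)).trans (hm h1) ((comp ends (insert e A)).trans hxy (hm h2))
    · exact (comp ends (insert e A)).trans (hm h1)
        ((comp ends (insert e A)).trans ((comp ends (insert e A)).symm hxy) (hm h2))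

variable [Fintype V]

/-- the rank function of the cycle matroid -/
noncomputable def rk (ends : E → Sym2 V) (A : Finset E) : ℤ :=
  Fintype.card V - numComp ends A

theorem rk_insert_of_rel {ends : E → Sym2 V} (A : Finset E) {e : E} {x y : V}
    (he : ends e = s(x, y)) (h : comp ends A x y) : rk ends (insert e A) = rk ends A := by
  unfold rk
  rw [numComp_eq, numComp_eq, comp_insert A he, addPair_self _ h]

theorem rk_insert_of_not_rel {ends : E → Sym2 V} (A : Finset E) {e : E} {x y : V}
    (he : ends e = s(x, y)) (h : ¬ comp ends A x y) : rk ends (insert e A) = rk ends A + 1 := by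
  unfold rk
  rw [numComp_eq, numComp_eq, comp_insert A he, ← card_addPair (comp ends A) h]
  push_cast
  ring

theorem rk_isRk (ends : E → Sym2 V) : IsRk (rk ends) := by
  apply isRk_of_marginal
  · unfold rk
    rw [numComp_eq]
    have e1 : Quotient (comp ends (∅ : Finset E)) ≃ V :=
      { toFun := Quotient.lift id (fun a b h => by
          have h2 := comp_le (⊥ : Setoid V) (fun x y hxy => by
            obtain ⟨e, he, -⟩ := hxy
            exact absurd he (notMem_empty e)) h
          exact h2)
        invFun := fun x => Quotient.mk _ x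
        left_inv := fun x => by
          induction x using Quotient.ind
          rfl
        right_inv := fun x => rfl }
    rw [Nat.card_congr e1, Nat.card_eq_fintype_card]
    ring
  · intro e A
    induction h : ends e using Sym2.ind with
    | _ x y =>
      by_cases h1 : comp ends A x y
      · exact Or.inl (rk_insert_of_rel A h h1)
      · exact Or.inr (rk_insert_of_not_rel A h h1)
  · intro e A B hAB hA
    induction h : ends e using Sym2.ind with
    | _ x y =>
      by_cases h1 : comp ends A x y
      · exact rk_insert_of_rel B h (comp_mono hAB h1)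
      · have := rk_insert_of_not_rel A h h1
        rw [hA] at this
        linarith

variable [Fintype E]

omit [DecidableEq E] in
theorem rk_univ {ends : E → Sym2 V} (h : TwoConnected ends) :
    rk ends univ = Fintype.card V - 1 ∧ 1 ≤ Fintype.card V := by
  have hne : Nonempty V := by
    have h1 : 0 < Fintype.card E := by
      have := h.twoEdges
      omega
    obtain ⟨e⟩ := Fintype.card_pos_iff.1 h1
    induction ends e using Sym2.ind with
    | _ x y => exact ⟨x⟩
  obtain ⟨x0⟩ := hne
  have hall : ∀ x y : V, comp ends univ x y := by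
    intro x y
    have := h.connected x y
    induction this with
    | refl => exact (comp ends univ).refl x
    | tail _ h1 ih =>
      obtain ⟨e, he⟩ := h1
      exact (comp ends univ).trans ih (comp_of_joined ⟨e, mem_univ e, he⟩)
  have h1 : Nat.card (Quotient (comp ends univ)) = 1 := by
    rw [Nat.card_eq_one_iff_unique]
    refine ⟨⟨?_⟩, ⟨Quotient.mk _ x0⟩⟩
    intro a b
    induction a using Quotient.ind
    induction b using Quotient.ind
    exact Quotient.sound (hall _ _)
  refine ⟨?_, Fintype.card_pos_iff.2 ⟨x0⟩⟩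
  unfold rk
  rw [numComp_eq, h1]
  rfl

theorem conn_of_twoConnected {ends : E → Sym2 V} (h : TwoConnected ends) :
    Conn (rk ends) univ := by
  intro X _ hX hXne
  by_contra hcon
  rw [not_le] at hcon
  have hr := rk_isRk ends
  set Y := univ \ X with hY
  have hXY : Disjoint X Y := disjoint_sdiff
  have hun : X ∪ Y = univ := union_sdiff_of_subset (subset_univ X)
  have hYX : ∀ e, e ∉ X → e ∈ Y := fun e he => mem_sdiff.2 ⟨mem_univ e, he⟩
  have hsep : rk ends X + rk ends Y = rk ends univ := by
    have h1 := hr.union_le X Y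
    rw [hun] at h1
    linarith
  have hadd : ∀ B C : Finset E, B ⊆ X → C ⊆ Y → rk ends (B ∪ C) = rk ends B + rk ends C := by
    intro B C hB hC
    have h1 := hr.conn_mono hB hXY
    have h2 := hr.conn_mono hC (Y := B) (hXY.symm.mono_right hB)
    rw [hun] at h1
    rw [union_comm Y B, union_comm C B] at h2
    have h3 := hr.union_le B C
    linarith
  -- an edge of Y
  have hYne : Y.Nonempty := by
    rw [nonempty_iff_ne_empty]
    intro h1
    exact hXne (Subset.antisymm (subset_univ X) (sdiff_eq_empty_iff_subset.1 h1))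
  obtain ⟨e1, he1⟩ := hX
  obtain ⟨e2, he2⟩ := hYne
  -- a vertex incident with both
  have hw : ∃ w a b : V, ∃ f ∈ X, ∃ g ∈ Y, ends f = s(w, a) ∧ ends g = s(w, b) := by
    by_contra hno
    push Not at hno
    obtain ⟨x1, x2, hx⟩ : ∃ x1 x2, ends e1 = s(x1, x2) := by
      induction h3 : ends e1 using Sym2.ind with
      | _ x y => exact ⟨x, y, rfl⟩
    obtain ⟨y1, y2, hy⟩ : ∃ y1 y2, ends e2 = s(y1, y2) := by
      induction h3 : ends e2 using Sym2.ind with
      | _ x y => exact ⟨x, y, rfl⟩
    have hP : ∀ z, Relation.ReflTransGen (fun a b => ∃ e, ends e = s(a, b)) x1 z →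
        ∃ f ∈ X, ∃ a, ends f = s(z, a) := by
      intro z hpath
      induction hpath with
      | refl => exact ⟨e1, he1, x2, hx⟩
      | @tail b c _ h1 ih =>
        obtain ⟨f, hf, a, hfa⟩ := ih
        obtain ⟨g, hg⟩ := h1
        by_cases hgX : g ∈ X
        · exact ⟨g, hgX, b, by rw [hg, Sym2.eq_swap]⟩
        · exact absurd hg (hno b a c f hf g (hYX g hgX) hfa)
    obtain ⟨f, hf, a, hfa⟩ := hP y1 (h.connected x1 y1)
    exact hno y1 a y2 f hf e2 he2 hfa hy
  obtain ⟨w, a, b, f, hf, g, hg, hfa, hgb⟩ := hw
  have haw : a ≠ w := by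
    intro h1
    apply h.loopless f
    rw [hfa, h1]
    exact rfl
  have hbw : b ≠ w := by
    intro h1
    apply h.loopless g
    rw [hgb, h1]
    exact rfl
  classical
  set A0 : Finset E := univ.filter (fun e => w ∉ ends e) with hA0
  set A : Finset E := insert f A0 with hA
  -- w and b are connected in A
  have hc0 : ∀ z, Relation.ReflTransGen (fun a b => a ≠ w ∧ b ≠ w ∧ ∃ e, ends e = s(a, b)) a z →
      comp ends A0 a z := by
    intro z hpath
    induction hpath with
    | refl => exact (comp ends A0).refl a
    | @tail c d _ h1 ih =>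
      obtain ⟨hc, hd, g', hg'⟩ := h1
      refine (comp ends A0).trans ih (comp_of_joined ⟨g', ?_, hg'⟩)
      rw [hA0, mem_filter]
      refine ⟨mem_univ _, ?_⟩
      rw [hg', Sym2.mem_iff]
      rintro (h2 | h2)
      · exact hc h2.symm
      · exact hd h2.symm
  have hc1 : comp ends A0 a b := hc0 b (h.noCutVertex w a b haw hbw)
  have hc2 : comp ends A w b :=
    (comp ends A).trans (comp_of_joined ⟨f, mem_insert_self _ _, hfa⟩)
      (comp_mono (subset_insert _ _) hc1)
  have hr1 : rk ends (insert g A) = rk ends A := rk_insert_of_rel A hgb hc2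
  have hgX : g ∉ X := fun h1 => disjoint_left.1 hXY h1 hg
  have hdA : A = (A ∩ X) ∪ (A ∩ Y) := by
    rw [← inter_union_distrib_left, hun, inter_univ]
  have hdgA : insert g A = (A ∩ X) ∪ insert g (A ∩ Y) := by
    rw [union_insert, ← hdA]
  have hr2 : rk ends (insert g (A ∩ Y)) = rk ends (A ∩ Y) := by
    rw [hdgA, hadd _ _ inter_subset_right (insert_subset hg inter_subset_right)] at hr1
    conv_rhs at hr1 => rw [hdA]
    rw [hadd _ _ inter_subset_right inter_subset_right] at hr1
    linarith
  have hc3 : comp ends (A ∩ Y) w b := by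
    by_contra hn
    have := rk_insert_of_not_rel (A ∩ Y) hgb hn
    linarith
  -- but w is isolated in A ∩ Y
  have hiso : (w = w ↔ b = w) := by
    refine comp_le (ends := ends) (A := A ∩ Y)
      { r := fun x y => (x = w ↔ y = w)
        iseqv := ⟨fun _ => Iff.rfl, fun h => h.symm, fun h1 h2 => h1.trans h2⟩ } ?_ hc3
    rintro x y ⟨e', he', hxy⟩
    rw [mem_inter, hA, mem_insert, hA0, mem_filter] at he'
    obtain ⟨h1 | ⟨-, h1⟩, h2⟩ := he'
    · exact absurd hf (fun h3 => disjoint_left.1 hXY h3 (h1 ▸ h2))
    · rw [hxy, Sym2.mem_iff] at h1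
      push Not at h1
      exact ⟨fun h3 => absurd h3.symm h1.1, fun h3 => absurd h3.symm h1.2⟩
  exact hbw (hiso.1 rfl)

end graph

end Pool.Agent.H257R2.Tutte
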