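import Pool.Agent.H257R2.Tutte.Seq
import Pool.Agent.H257R2.Tutte.Graph

set_option autoImplicit false

namespace Pool.Agent.H257R2.Tutte

open Finset Filter Topology

theorem tutteZ_eq {V E : Type} [Fintype V] [Fintype E] [DecidableEq E] (ends : E → Sym2 V)
    {q : ℝ} (hq : 0 < q) (v : E → ℝ) (h : TwoConnected ends) :
    (-1) ^ Fintype.card V * tutteZ ends q v =
      -(q * zf q (rk ends) (fun e => 1 + v e) univ) := by
  obtain ⟨h1, h2⟩ := rk_univ h
  have hq0 : q ≠ 0 := hq.ne'
  have hnq : (-q : ℝ) ≠ 0 := neg_ne_zero.2 hq0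
  have hH : tutteZ ends q v = q ^ (Fintype.card V : ℤ) *
      H q (rk ends) (fun e => 1 + v e) univ ∅ := by
    unfold tutteZ H
    rw [powerset_univ, mul_sum]
    apply sum_congr rfl
    intro A _
    have e1 : ∏ a ∈ A, (1 + v a - 1) = ∏ a ∈ A, v a := by
      apply prod_congr rfl
      intro a _
      ring
    rw [e1, union_empty, ← mul_assoc, ← zpow_add₀ hq0]
    have e2 : (Fintype.card V : ℤ) + -(rk ends A) = (numComp ends A : ℤ) := by
      unfold rk
      ring
    rw [e2, zpow_natCast]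
  unfold zf
  rw [hH, h1]
  have e3 : (-q) ^ ((Fintype.card V : ℤ) - 1) * (-q) = (-1) ^ Fintype.card V *
      q ^ (Fintype.card V : ℤ) := by
    rw [← zpow_add_one₀ hnq, sub_add_cancel, zpow_natCast, zpow_natCast, ← mul_pow]
    congr 1
    ring
  rw [← mul_assoc, ← e3]
  ring

theorem sign_of_allGood {q a b : ℝ} (hq : 0 < q) (hq1 : q ≠ 1) {m : ℕ} (h : AllGood q a b m)
    {V E : Type} [Fintype V] [Fintype E] (ends : E → Sym2 V) (v : E → ℝ)
    (hG : TwoConnected ends) (hm : m ≤ Fintype.card E) (hv : ∀ e, a - 1 ≤ v e ∧ v e ≤ b - 1) :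
    0 < (-1) ^ (Fintype.card V + if q < 1 then 1 else 0) * tutteZ ends q v := by
  classical
  have h1 := h E (rk ends) univ (fun e => 1 + v e) (rk_isRk ends) (conn_of_twoConnected hG)
    (by rw [card_univ]; exact hm) (fun e _ => by
      have := hv e
      constructor <;> linarith)
  have h2 := tutteZ_eq ends hq v hG
  rcases lt_or_gt_of_ne hq1 with h3 | h3
  · rw [if_pos h3, pow_succ]
    have h4 := mul_pos hq (h1.1 h3)
    have e1 : (-1 : ℝ) ^ Fintype.card V * (-1) * tutteZ ends q v =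
        -((-1) ^ Fintype.card V * tutteZ ends q v) := by ring
    rw [e1, h2]
    linarith
  · rw [if_neg (by linarith), add_zero, h2]
    have h4 := mul_neg_of_pos_of_neg hq (h1.2 h3)
    linarith

/-- the main theorem -/
theorem main_graph {q : ℝ} (hq : (0 < q ∧ q < 1) ∨ (1 < q ∧ q < 32 / 27)) :
    (∃ vp, IsMiddleRoot q vp) ∧ ∀ vp, IsMiddleRoot q vp →
    ∃ l u : ℕ → ℝ,
      (∀ m, l m < u m ∧ u m < 0) ∧
      (∀ m, ∀ v ∈ Set.Icc (l m) (u m), q / v ∈ Set.Icc (l m) (u m)) ∧
      (∀ m, Set.Icc (l m) (u m) ⊆ Set.Icc (l (m + 1)) (u (m + 1))) ∧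
      Tendsto l atTop (𝓝 (q / vp)) ∧ Tendsto u atTop (𝓝 vp) ∧
      ∀ m, 2 ≤ m → ∀ (V E : Type) [Fintype V] [Fintype E] (ends : E → Sym2 V) (v : E → ℝ),
        TwoConnected ends → m ≤ Fintype.card E → (∀ e, v e ∈ Set.Icc (l m) (u m)) →
        0 < (-1) ^ (Fintype.card V + if q < 1 then 1 else 0) * tutteZ ends q v := by
  have hq0 : 0 < q := by
    rcases hq with h | h
    · exact h.1
    · linarith [h.1]
  have hq1 : q ≠ 1 := by
    rcases hq with h | h
    · exact h.2.ne
    · exact h.1.ne'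
  have hq2 : q < 32 / 27 := by
    rcases hq with h | h
    · linarith [h.2]
    · exact h.2
  refine ⟨exists_middleRoot hq0 hq2, ?_⟩
  intro vp hvp
  obtain ⟨hvneg, hpar⟩ := par_of_middleRoot hq0 hq1 hvp
  obtain ⟨c, hc1, hc2, hc3, hc4⟩ := exists_seq hq hpar
  have hcone : ∀ m, c m < 1 := fun m => (hc2 m).2.1.trans one_pos
  refine ⟨fun m => c m - 1, fun m => dl q (c m) - 1, ?_, ?_, ?_, ?_, ?_, ?_⟩
  · intro m
    refine ⟨by linarith [(hc2 m).2.2], ?_⟩
    have := dl_lt_one hq0 (hcone m)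
    linarith
  · rintro m v ⟨h1, h2⟩
    have h3 := dl_lt_one hq0 (hcone m)
    have hv1 : 1 + v < 1 := by linarith
    have e1 : q / v = dl q (1 + v) - 1 := by
      unfold dl
      have : 1 - (1 + v) = -v := by ring
      rw [this, div_neg]
      ring
    rw [e1]
    constructor
    · have h4 : c m ≤ dl q (1 + v) := by
        rw [← dl_dl hq0 (hcone m)]
        exact dl_anti hq0 h3 (by linarith)
      linarith
    · have h4 : dl q (1 + v) ≤ dl q (c m) := dl_anti hq0 hv1 (by linarith)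
      linarith
  · intro m
    apply Set.Icc_subset_Icc
    · have := hc1 (Nat.le_succ m)
      linarith
    · have h1 := hc1 (Nat.le_succ m)
      have h2 : dl q (c m) ≤ dl q (c (m + 1)) := dl_anti hq0 (hcone m) h1
      linarith
  · have h1 : Tendsto (fun m => c m - 1) atTop (𝓝 (1 + q / vp - 1)) := hc3.sub_const 1
    rwa [show 1 + q / vp - 1 = q / vp by ring] at h1
  · have h1 : Tendsto (fun m => c m - 1) atTop (𝓝 (1 + q / vp - 1)) := hc3.sub_const 1
    rw [show 1 + q / vp - 1 = q / vp by ring] at h1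
    have hne : q / vp ≠ 0 := div_ne_zero hq0.ne' hvneg.ne
    have h2 : Tendsto (fun m => q / (c m - 1)) atTop (𝓝 (q / (q / vp))) :=
      tendsto_const_nhds.div h1 hne
    have e1 : q / (q / vp) = vp := by
      field_simp
    rw [e1] at h2
    refine h2.congr ?_
    intro m
    unfold dl
    have : 1 - c m = -(c m - 1) := by ring
    rw [this, div_neg]
    ring
  · intro m hm V E _ _ ends v hG hcard hv
    exact sign_of_allGood hq0 hq1 (hc4 m hm) ends v hG hcard (fun e => hv e)

end Pool.Agent.H257R2.Tutte
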