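import Pool.Agent.H257R2.Tutte.Anal

set_option autoImplicit false

namespace Pool.Agent.H257R2.Tutte

open Finset Filter Topology

section

variable {q a b κ : ℝ}

/-- basic conditions on a self-dual interval `[a, b]` closed under multiplication -/
structure Base (q a b κ : ℝ) : Prop where
  q0 : 0 < q
  q1 : q ≠ 1
  a1 : -1 < a
  a0 : a < min 0 (1 - q)
  hb : dl q a = b
  ab : a ^ 2 ≤ b
  k0 : 1 / 2 ≤ κ
  k1 : κ < 1
  kb : b ≤ κ

theorem Base.b1 (h : Base q a b κ) : b < 1 := h.kb.trans_lt h.k1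

theorem Base.aneg (h : Base q a b κ) : a < 0 := h.a0.trans_le (min_le_left _ _)

theorem Base.bpos (h : Base q a b κ) : 0 < b := by
  have h1 := h.aneg
  have h2 := h.ab
  have := mul_pos_of_neg_of_neg h1 h1
  nlinarith

theorem Base.c1_lt (h : Base q a b κ) : max 0 (1 - q) < b := by
  rw [← dl_c0 h.q0, ← h.hb]
  exact dl_strictAnti h.q0 ((min_le_left _ _).trans_lt one_pos) h.a0

theorem Base.const (h : Base q a b κ) : SeqHyp q a b κ (fun _ => b) := by
  have h1 := h.aneg
  have h2 := h.bpos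
  have h3 := h.b1
  have hba : dl q b = a := by
    rw [← h.hb]
    exact dl_dl h.q0 (by linarith)
  exact
  { q0 := h.q0
    q1 := h.q1
    a1 := h.a1
    a0 := h.a0.le
    b1 := h.b1
    hb := h.hb
    k0 := h.k0
    k1 := h.k1
    kb := h.kb
    Ub := fun _ => le_rfl
    Uc := fun _ => h.c1_lt.le
    anti := fun _ _ _ => le_rfl
    s1 := fun _ => by nlinarith
    s2 := fun _ => by
      rw [hba]
      nlinarith [h.ab]
    s3 := fun _ => by
      have h4 : a * b < 1 := by nlinarith
      rw [dl_le_iff h.q0 h4 h.b1, hba]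
      nlinarith
    s4 := fun _ => by
      rw [hba]
      have h4 : b * a < 1 := by nlinarith
      rw [dl_le_iff h.q0 h4 h.b1, hba]
      nlinarith
    s5 := fun _ => by nlinarith [h.c1_lt, h.k1]
    s6 := fun _ => by
      have h5 : 0 < 1 - κ := by linarith [h.k1]
      have h6 := h.a0
      have h7 : min 0 (1 - q) ≤ 0 := min_le_left _ _
      rw [hba]
      have h4 : (1 - κ) * min 0 (1 - q) + κ * a < 1 := by
        have h8 : (1 - κ) * min 0 (1 - q) ≤ 0 := mul_nonpos_of_nonneg_of_nonpos h5.le h7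
        have h9 : κ * a ≤ 0 := mul_nonpos_of_nonneg_of_nonpos (by linarith [h.k0]) h1.le
        linarith
      rw [dl_le_iff h.q0 h4 h.b1, hba]
      nlinarith }

/-- the iterated map -/
noncomputable def Fm (q a b κ U : ℝ) : ℝ :=
  max (max (b * U) (a * dl q U)) (max (max (dl q (a * U)) (dl q (b * dl q U)))
    (max ((1 - κ) * max 0 (1 - q) + κ * U) (dl q ((1 - κ) * min 0 (1 - q) + κ * dl q U))))

theorem Fm_cont (h : Base q a b κ) {U : ℝ} (h0 : max 0 (1 - q) ≤ U) (h1 : U < 1) :
    ContinuousAt (Fm q a b κ) U := by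
  have hU0 : 0 ≤ U := (le_max_left _ _).trans h0
  have hd0 : dl q U ≤ min 0 (1 - q) := by
    rw [← dl_c1 h.q0]
    exact dl_anti h.q0 h1 h0
  have hd1 : dl q U ≤ 0 := hd0.trans (min_le_left _ _)
  have ha := h.aneg
  have hb := h.bpos
  have hdl : ∀ {x : ℝ}, x < 1 → ContinuousAt (dl q) x := by
    intro x hx
    unfold dl
    apply ContinuousAt.sub continuousAt_const
    apply ContinuousAt.div continuousAt_const (by fun_prop)
    linarith
  unfold Fm
  have c1 : ContinuousAt (fun U => b * U) U := by fun_prop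
  have c2 : ContinuousAt (fun U => a * dl q U) U := continuousAt_const.mul (hdl h1)
  have c3 : ContinuousAt (fun U => dl q (a * U)) U := by
    apply ContinuousAt.comp (f := fun U => a * U) (g := dl q)
    · exact hdl (by nlinarith)
    · fun_prop
  have c4 : ContinuousAt (fun U => dl q (b * dl q U)) U := by
    apply ContinuousAt.comp (f := fun U => b * dl q U) (g := dl q)
    · exact hdl (by nlinarith)
    · exact continuousAt_const.mul (hdl h1)
  have c5 : ContinuousAt (fun U => (1 - κ) * max 0 (1 - q) + κ * U) U := by fun_prop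
  have c6 : ContinuousAt (fun U => dl q ((1 - κ) * min 0 (1 - q) + κ * dl q U)) U := by
    apply ContinuousAt.comp (f := fun U => (1 - κ) * min 0 (1 - q) + κ * dl q U) (g := dl q)
    · apply hdl
      have h8 : (1 - κ) * min 0 (1 - q) ≤ 0 :=
        mul_nonpos_of_nonneg_of_nonpos (by linarith [h.k1]) (min_le_left _ _)
      have h9 : κ * dl q U ≤ 0 := mul_nonpos_of_nonneg_of_nonpos (by linarith [h.k0]) hd1
      linarith
    · exact continuousAt_const.add (continuousAt_const.mul (hdl h1))
  exact (c1.max c2).max ((c3.max c4).max (c5.max c6))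

theorem Fm_mono (h : Base q a b κ) {U U' : ℝ} (h0 : max 0 (1 - q) ≤ U) (hUU : U ≤ U')
    (h1 : U' < 1) : Fm q a b κ U ≤ Fm q a b κ U' := by
  have ha := h.aneg
  have hb := h.bpos
  have hU1 : U < 1 := hUU.trans_lt h1
  have hU0 : 0 ≤ U := (le_max_left _ _).trans h0
  have hd0 : dl q U ≤ min 0 (1 - q) := by
    rw [← dl_c1 h.q0]
    exact dl_anti h.q0 hU1 h0
  have hd1 : dl q U ≤ 0 := hd0.trans (min_le_left _ _)
  have hd : dl q U' ≤ dl q U := dl_anti h.q0 h1 hUU
  have hk : 0 < κ := by linarith [h.k0]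
  unfold Fm
  refine max_le_max (max_le_max ?_ ?_) (max_le_max (max_le_max ?_ ?_) (max_le_max ?_ ?_))
  · nlinarith
  · nlinarith
  · apply dl_anti h.q0
    · nlinarith
    · nlinarith
  · apply dl_anti h.q0
    · nlinarith
    · nlinarith
  · nlinarith
  · apply dl_anti h.q0
    · have h8 : (1 - κ) * min 0 (1 - q) ≤ 0 :=
        mul_nonpos_of_nonneg_of_nonpos (by linarith [h.k1]) (min_le_left _ _)
      have h9 : κ * dl q U ≤ 0 := mul_nonpos_of_nonneg_of_nonpos hk.le hd1
      linarith
    · nlinarith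

/-- the sequence of upper bounds -/
noncomputable def Us (q a b κ : ℝ) : ℕ → ℝ
  | 0 => b
  | k + 1 => Fm q a b κ (Us q a b κ k)

theorem Fm_le_b (h : Base q a b κ) : Fm q a b κ b ≤ b := by
  have hc := h.const
  unfold Fm
  exact max_le (max_le (hc.s1 0) (hc.s2 0)) (max_le (max_le (hc.s3 0) (hc.s4 0))
    (max_le (hc.s5 0) (hc.s6 0)))

theorem c1_le_Fm (h : Base q a b κ) {U : ℝ} (h0 : max 0 (1 - q) ≤ U) :
    max 0 (1 - q) ≤ Fm q a b κ U := by
  unfold Fm
  refine le_trans ?_ ((le_max_left _ _).trans ((le_max_right _ _).trans (le_max_right _ _)))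
  have hk : 0 < κ := by linarith [h.k0]
  nlinarith

theorem Us_props (h : Base q a b κ) : ∀ k, max 0 (1 - q) ≤ Us q a b κ k ∧
    Us q a b κ k ≤ b ∧ Us q a b κ (k + 1) ≤ Us q a b κ k := by
  intro k
  induction k with
  | zero => exact ⟨h.c1_lt.le, le_rfl, Fm_le_b h⟩
  | succ k ih =>
    obtain ⟨h1, h2, h3⟩ := ih
    have h4 : max 0 (1 - q) ≤ Us q a b κ (k + 1) := c1_le_Fm h h1
    refine ⟨h4, h3.trans h2, ?_⟩
    exact Fm_mono h h4 h3 (h2.trans_lt h.b1)

theorem Us_seq (h : Base q a b κ) : SeqHyp q a b κ (Us q a b κ) := by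
  have hp := Us_props h
  have e : ∀ k, Us q a b κ (k + 1) = Fm q a b κ (Us q a b κ k) := fun _ => rfl
  exact
  { q0 := h.q0
    q1 := h.q1
    a1 := h.a1
    a0 := h.a0.le
    b1 := h.b1
    hb := h.hb
    k0 := h.k0
    k1 := h.k1
    kb := h.kb
    Ub := fun k => (hp k).2.1
    Uc := fun k => (hp k).1
    anti := antitone_nat_of_succ_le (fun k => (hp k).2.2)
    s1 := fun k => by
      rw [e, Fm]
      exact (le_max_left _ _).trans (le_max_left _ _)
    s2 := fun k => by
      rw [e, Fm]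
      exact (le_max_right _ _).trans (le_max_left _ _)
    s3 := fun k => by
      rw [e, Fm]
      exact (le_max_left _ _).trans ((le_max_left _ _).trans (le_max_right _ _))
    s4 := fun k => by
      rw [e, Fm]
      exact (le_max_right _ _).trans ((le_max_left _ _).trans (le_max_right _ _))
    s5 := fun k => by
      rw [e, Fm]
      exact (le_max_left _ _).trans ((le_max_right _ _).trans (le_max_right _ _))
    s6 := fun k => by
      rw [e, Fm]
      exact (le_max_right _ _).trans ((le_max_right _ _).trans (le_max_right _ _)) }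

/-- if the map is strictly decreasing above `τ` then the sequence goes below `τ` -/
theorem Us_lt (h : Base q a b κ) {τ : ℝ}
    (hτ : ∀ U, τ ≤ U → max 0 (1 - q) ≤ U → U ≤ b → Fm q a b κ U < U) :
    ∃ k, Us q a b κ k < τ := by
  by_contra hcon
  push Not at hcon
  have hp := Us_props h
  have hanti : Antitone (Us q a b κ) := antitone_nat_of_succ_le (fun k => (hp k).2.2)
  have hbdd : BddBelow (Set.range (Us q a b κ)) := ⟨τ, by rintro _ ⟨k, rfl⟩; exact hcon k⟩
  have hlim := tendsto_atTop_ciInf hanti hbdd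
  set L := ⨅ i, Us q a b κ i with hL
  have h1 : τ ≤ L := le_ciInf hcon
  have h2 : max 0 (1 - q) ≤ L := le_ciInf (fun k => (hp k).1)
  have h3 : L ≤ b := ciInf_le hbdd 0
  have h4 := hτ L h1 h2 h3
  have h5 : Tendsto (fun k => Us q a b κ (k + 1)) atTop (𝓝 L) :=
    hlim.comp (tendsto_add_atTop_nat 1)
  have h6 : Tendsto (fun k => Fm q a b κ (Us q a b κ k)) atTop (𝓝 (Fm q a b κ L)) :=
    (Fm_cont h h2 (h3.trans_lt h.b1)).tendsto.comp hlim
  have h7 := tendsto_nhds_unique h5 h6
  linarith

end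

end Pool.Agent.H257R2.Tutte
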