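import Pool.Agent.H257R2.Tutte.Base

set_option autoImplicit false

/-!
The main induction: every connected pointed matroid whose weights are controlled by their sizes is
itself controlled by its total size.
-/

namespace Pool.Agent.H257R2.Tutte

open Finset

structure KHyp (q κ : ℝ) (lo hi : ℕ → ℝ) : Prop where
  q0 : 0 < q
  q1 : q ≠ 1
  k0 : 1 / 2 ≤ κ
  k1 : κ ≤ 1
  hik : ∀ n, hi n ≤ κ
  hiq : ∀ n, hi n < 1 - q / 2
  lo1 : ∀ n, -1 ≤ lo n
  hic : ∀ n, max 0 (1 - q) ≤ hi n
  loc : ∀ n, lo n ≤ min 0 (1 - q)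
  stephi : ∀ n n', n' ≤ n → n ≤ 2 * n' → 1 ≤ n' → (1 - κ) * max 0 (1 - q) + κ * hi n' ≤ hi n
  steplo : ∀ n n', n' ≤ n → n ≤ 2 * n' → 1 ≤ n' → lo n ≤ (1 - κ) * min 0 (1 - q) + κ * lo n'
  par : ∀ s t, 1 ≤ s → 1 ≤ t → ∀ y1 y2, lo s ≤ y1 → y1 ≤ hi s → lo t ≤ y2 → y2 ≤ hi t →
    lo (s + t) ≤ y1 * y2 ∧ y1 * y2 ≤ hi (s + t)
  ser : ∀ s t, 1 ≤ s → 1 ≤ t → ∀ y1 y2, lo s ≤ y1 → y1 ≤ hi s → lo t ≤ y2 → y2 ≤ hi t →
    lo (s + t) * (-(q + (y1 - 1) + (y2 - 1))) ≤
      -(q + (y1 - 1) + (y2 - 1) + (y1 - 1) * (y2 - 1)) ∧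
    -(q + (y1 - 1) + (y2 - 1) + (y1 - 1) * (y2 - 1)) ≤
      hi (s + t) * (-(q + (y1 - 1) + (y2 - 1)))

/-- the contraction estimate for the upper bound -/
theorem contr_hi {κ c1 h t A1 A2 B1 B2 : ℝ} (hk0 : 1 / 2 ≤ κ) (hA1 : 0 < A1)
    (hA2 : 0 < A2) (hB1 : B1 ≤ h * A1) (hB2 : B2 ≤ h * A2) (hB : B1 + B2 ≤ c1 * (A1 + A2))
    (hc : c1 ≤ h) (ht0 : 0 ≤ t) (ht1 : 1 - t ≤ κ) (ht2 : t ≤ 2) :
    B1 + t * B2 ≤ ((1 - κ) * c1 + κ * h) * (A1 + t * A2) := by
  rcases le_total t 1 with h1 | h1
  · have e1 : B1 + t * B2 = (1 - t) * B1 + t * (B1 + B2) := by ring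
    have h2 : (1 - t) * B1 ≤ (1 - t) * (h * A1) := mul_le_mul_of_nonneg_left hB1 (by linarith)
    have h3 : t * (B1 + B2) ≤ t * (c1 * (A1 + A2)) := mul_le_mul_of_nonneg_left hB ht0
    have h4 : 0 ≤ (h - c1) * (κ * (A1 + t * A2) - (1 - t) * A1) := by
      apply mul_nonneg (by linarith)
      have h5 : (1 - t) * A1 ≤ κ * A1 := mul_le_mul_of_nonneg_right ht1 hA1.le
      have h6 : 0 ≤ κ * (t * A2) := by positivity
      linarith
    rw [e1]
    nlinarith [h2, h3, h4]
  · have e1 : B1 + t * B2 = (B1 + B2) + (t - 1) * B2 := by ring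
    have h2 : (t - 1) * B2 ≤ (t - 1) * (h * A2) := mul_le_mul_of_nonneg_left hB2 (by linarith)
    have h4 : 0 ≤ (h - c1) * (κ * (A1 + t * A2) - (t - 1) * A2) := by
      apply mul_nonneg (by linarith)
      have h5 : (t - 1) * A2 ≤ κ * t * A2 := by
        apply mul_le_mul_of_nonneg_right _ hA2.le
        nlinarith
      have h6 : 0 ≤ κ * A1 := by positivity
      linarith
    rw [e1]
    nlinarith [h2, hB, h4]

theorem contr_lo {κ c0 l t A1 A2 B1 B2 : ℝ} (hk0 : 1 / 2 ≤ κ) (hA1 : 0 < A1)
    (hA2 : 0 < A2) (hB1 : l * A1 ≤ B1) (hB2 : l * A2 ≤ B2) (hB : c0 * (A1 + A2) ≤ B1 + B2)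
    (hc : l ≤ c0) (ht0 : 0 ≤ t) (ht1 : 1 - t ≤ κ) (ht2 : t ≤ 2) :
    ((1 - κ) * c0 + κ * l) * (A1 + t * A2) ≤ B1 + t * B2 := by
  have h := contr_hi (κ := κ) (c1 := -c0) (h := -l) (t := t) (A1 := A1) (A2 := A2) (B1 := -B1)
    (B2 := -B2) hk0 hA1 hA2 (by linarith) (by linarith) (by linarith) (by linarith) ht0 ht1 ht2
  nlinarith [h]

variable {E : Type} [DecidableEq E]

theorem main_induction {q κ : ℝ} {lo hi : ℕ → ℝ} (K : KHyp q κ lo hi) :
    ∀ (n : ℕ) (r : Finset E → ℤ) (S : Finset E) (e : E) (y : E → ℝ) (s : E → ℕ), S.card = n →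
      IsRk r → Conn r S → e ∈ S → 2 ≤ S.card →
      (∀ f ∈ S.erase e, 1 ≤ s f ∧ lo (s f) ≤ y f ∧ y f ≤ hi (s f)) →
      0 < Av q r y S e ∧
      lo (∑ f ∈ S.erase e, s f) * Av q r y S e ≤ Bv q r y S e ∧
      Bv q r y S e ≤ hi (∑ f ∈ S.erase e, s f) * Av q r y S e := by
  intro n
  induction n using Nat.strong_induction_on with
  | _ n ih =>
  intro r S e y s hn hr hc he h2 hs
  have hq0 : q ≠ 0 := K.q0.ne'
  have hq1 : q ≠ 1 := K.q1
  have hce : (S.erase e).card = S.card - 1 := card_erase_of_mem he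
  rcases (show S.card = 2 ∨ S.card = 3 ∨ 4 ≤ S.card by omega) with h | h | h
  · -- two elements
    obtain ⟨f, hf⟩ := card_eq_one.1 (show (S.erase e).card = 1 by omega)
    have hSe : S = {e, f} := by rw [← hf, insert_erase he]
    have hfS : f ∈ S := by
      rw [hSe]
      simp
    have hef : e ≠ f := by
      intro h3
      rw [hSe, h3] at h
      simp at h
    have r1 := hc.erase_rank hr h2 he
    have r2 := hc.erase_rank hr h2 hfS
    have hrS : r {e, f} = 1 := by
      rw [← hSe, ← r1.2, hf, r2.1]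
    have h3 := base2 (y := y) hq0 hq1 hr hef r1.1 r2.1 hrS
    rw [hf, sum_singleton, hSe, h3.1, h3.2]
    have h4 := hs f (by rw [hf]; simp)
    refine ⟨one_pos, ?_, ?_⟩
    · rw [mul_one]
      exact h4.2.1
    · rw [mul_one]
      exact h4.2.2
  · -- three elements
    obtain ⟨f, g, hfg, hfgS⟩ := card_eq_two.1 (show (S.erase e).card = 2 by omega)
    have hSe : S = {e, f, g} := by rw [← hfgS, insert_erase he]
    have hfE : f ∈ S.erase e := by
      rw [hfgS]
      simp
    have hgE : g ∈ S.erase e := by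
      rw [hfgS]
      simp
    have hfS := mem_of_mem_erase hfE
    have hgS := mem_of_mem_erase hgE
    have hef : e ≠ f := (ne_of_mem_erase hfE).symm
    have heg : e ≠ g := (ne_of_mem_erase hgE).symm
    have r1 := hc.erase_rank hr h2 he
    have r2 := hc.erase_rank hr h2 hfS
    have r3 := hc.erase_rank hr h2 hgS
    have e1 : S.erase f = {e, g} := by
      rw [hSe]
      ext x
      simp only [mem_erase, mem_insert, mem_singleton]
      constructor
      · rintro ⟨h4, h5⟩
        tauto
      · rintro (rfl | rfl)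
        · exact ⟨hef, Or.inl rfl⟩
        · exact ⟨hfg.symm, Or.inr (Or.inr rfl)⟩
    have e2 : S.erase g = {e, f} := by
      rw [hSe]
      ext x
      simp only [mem_erase, mem_insert, mem_singleton]
      constructor
      · rintro ⟨h4, h5⟩
        tauto
      · rintro (rfl | rfl)
        · exact ⟨heg, Or.inl rfl⟩
        · exact ⟨hfg, Or.inr (Or.inl rfl)⟩
    have h5 := hs f hfE
    have h6 := hs g hgE
    rw [hfgS, sum_pair hfg]
    have hle : r S ≤ 2 := by
      rw [← r1.2, hfgS]
      have h7 := hr.insert_le f {g}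
      have h8 := hr.single g
      linarith
    have hge : 1 ≤ r S := by
      rw [← r1.1]
      exact hr.mono (singleton_subset_iff.2 he)
    rcases (show r S = 1 ∨ r S = 2 by omega) with h7 | h7
    · have h3 := base3_par (y := y) hq0 hq1 hr hef heg hfg (by rw [← hSe]; exact h7)
        r1.1 r2.1 r3.1
      rw [hSe, h3.1, h3.2]
      have h8 := K.par (s f) (s g) h5.1 h6.1 (y f) (y g) h5.2.1 h5.2.2 h6.2.1 h6.2.2
      refine ⟨one_pos, ?_, ?_⟩
      · rw [mul_one]
        exact h8.1
      · rw [mul_one]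
        exact h8.2
    · have h3 := base3_ser (y := y) hq0 hq1 hr hef heg hfg (by rw [← hSe]; exact h7)
        r1.1 r2.1 r3.1 (by rw [← e2, r3.2, h7]) (by rw [← e1, r2.2, h7])
        (by rw [← hfgS, r1.2, h7])
      rw [hSe, h3.1, h3.2]
      have h8 := K.ser (s f) (s g) h5.1 h6.1 (y f) (y g) h5.2.1 h5.2.2 h6.2.1 h6.2.2
      refine ⟨?_, h8.1, h8.2⟩
      have h9 := K.hiq (s f)
      have h10 := K.hiq (s g)
      linarith [h5.2.2, h6.2.2]
  · by_cases hI : Irr r S
    · -- no 2-separation
      obtain ⟨f, hfE, hmin⟩ := exists_min_image (S.erase e) s (card_pos.1 (by omega))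
      have hfS := mem_of_mem_erase hfE
      have hef : e ≠ f := (ne_of_mem_erase hfE).symm
      have r1 := hc.erase_rank hr h2 he
      have r2 := hc.erase_rank hr h2 hfS
      have hsum : ∑ x ∈ S.erase e, s x = ∑ x ∈ (S.erase f).erase e, s x + s f := by
        rw [erase_right_comm, sum_erase_add _ _ hfE]
      have hcard := card_nsmul_le_sum (S.erase e) s (s f) hmin
      rw [smul_eq_mul] at hcard
      have hcard2 : 3 * s f ≤ ∑ x ∈ S.erase e, s x := by
        refine le_trans ?_ hcard
        exact Nat.mul_le_mul_right _ (by omega)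
      have hsf := (hs f hfE).1
      set N := ∑ x ∈ S.erase e, s x with hN
      set N' := ∑ x ∈ (S.erase f).erase e, s x with hN'
      have hcf : (S.erase f).card = S.card - 1 := card_erase_of_mem hfS
      have heSf : e ∈ S.erase f := mem_erase.2 ⟨hef, he⟩
      have hs' : ∀ x ∈ (S.erase f).erase e, 1 ≤ s x ∧ lo (s x) ≤ y x ∧ y x ≤ hi (s x) := by
        intro x hx
        apply hs x
        rw [erase_right_comm] at hx
        exact mem_of_mem_erase hx
      have hs'' : ∀ x ∈ (S.erase e).erase f, 1 ≤ s x ∧ lo (s x) ≤ y x ∧ y x ≤ hi (s x) :=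
        fun x hx => hs x (mem_of_mem_erase hx)
      have i1 := ih (S.erase f).card (by omega) r (S.erase f) e y s rfl hr
        (conn_erase hr hI h hfS) heSf (by omega) hs'
      have i2 := ih (S.erase f).card (by omega) (ctr r f) (S.erase f) e y s rfl (hr.ctr f)
        (conn_ctr hr hI h hfS r2.1) heSf (by omega) hs'
      have i3 := ih (S.erase e).card (by omega) r (S.erase e) f y s rfl hr
        (conn_erase hr hI h he) hfE (by omega) hs''
      have i4 := ih (S.erase e).card (by omega) (ctr r e) (S.erase e) f y s rfl (hr.ctr e)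
        (conn_ctr hr hI h he r1.1) hfE (by omega) hs''
      obtain ⟨d1, d2, d3, d4⟩ := del_ctr hq0 hq1 y he hfS hef r2.1 r1.1 r2.2 r1.2
      rw [← hN'] at i1 i2
      set A1 := Av q r y (S.erase f) e
      set A2 := Av q (ctr r f) y (S.erase f) e
      set B1 := Bv q r y (S.erase f) e
      set B2 := Bv q (ctr r f) y (S.erase f) e
      have hy := hs f hfE
      have hk := K.hik (s f)
      have hl := K.lo1 (s f)
      have t0 : 0 ≤ 1 - y f := by linarith [hy.2.2, K.k1]
      have t1 : 1 - (1 - y f) ≤ κ := by linarith [hy.2.2]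
      have t2 : 1 - y f ≤ 2 := by linarith [hy.2.1]
      have hA : Av q r y S e = A1 + (1 - y f) * A2 := by rw [d1]; ring
      have hB : Bv q r y S e = B1 + (1 - y f) * B2 := by rw [d2]; ring
      have hApos : 0 < A1 + (1 - y f) * A2 := by
        have := mul_nonneg t0 i2.1.le
        linarith [i1.1]
      have n1 : N' ≤ N := by omega
      have n2 : N ≤ 2 * N' := by omega
      have n3 : 1 ≤ N' := by omega
      have hmaxB : B1 + B2 ≤ max 0 (1 - q) * (A1 + A2) := by
        rcases lt_or_gt_of_ne hq1 with h5 | h5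
        · have h6 : (0 : ℝ) < 1 - q := by linarith
          rw [max_eq_right h6.le]
          have := mul_pos h6 i3.1
          linarith
        · have h6 : (1 : ℝ) - q < 0 := by linarith
          rw [max_eq_left h6.le, zero_mul, d3]
          exact (mul_neg_of_neg_of_pos h6 i4.1).le
      have hminB : min 0 (1 - q) * (A1 + A2) ≤ B1 + B2 := by
        rcases lt_or_gt_of_ne hq1 with h5 | h5
        · have h6 : (0 : ℝ) < 1 - q := by linarith
          rw [min_eq_left h6.le, zero_mul, d3]
          exact (mul_pos h6 i4.1).le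
        · have h6 : (1 : ℝ) - q < 0 := by linarith
          rw [min_eq_right h6.le]
          have := mul_neg_of_neg_of_pos h6 i3.1
          linarith
      rw [hA, hB]
      refine ⟨hApos, ?_, ?_⟩
      · have h7 := contr_lo (κ := κ) K.k0 i1.1 i2.1 i1.2.1 i2.2.1 hminB (K.loc N') t0 t1 t2
        have h8 := mul_le_mul_of_nonneg_right (K.steplo N N' n1 n2 n3) hApos.le
        exact h8.trans h7
      · have h7 := contr_hi (κ := κ) K.k0 i1.1 i2.1 i1.2.2 i2.2.2 hmaxB (K.hic N') t0 t1 t2
        have h8 := mul_le_mul_of_nonneg_right (K.stephi N N' n1 n2 n3) hApos.le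
        exact h7.trans h8
    · -- a 2-separation
      have hsep : ∃ X Y : Finset E, Disjoint X Y ∧ X ∪ Y = S ∧ 2 ≤ X.card ∧ 2 ≤ Y.card ∧
          e ∈ Y ∧ r X + r Y = r S + 1 := by
        unfold Irr at hI
        push Not at hI
        obtain ⟨X, hXS, hX2, hY2, hlt⟩ := hI
        have hge := hc X hXS (card_pos.1 (by omega)) (by
          intro h5
          rw [h5, sdiff_self] at hY2
          simp at hY2)
        have hun : X ∪ S \ X = S := union_sdiff_of_subset hXS
        by_cases heX : e ∈ X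
        · refine ⟨S \ X, X, sdiff_disjoint, ?_, hY2, hX2, heX, ?_⟩
          · rw [union_comm]
            exact hun
          · linarith
        · refine ⟨X, S \ X, disjoint_sdiff, hun, hX2, hY2, mem_sdiff.2 ⟨he, heX⟩, ?_⟩
          linarith
      obtain ⟨X, Y, hXY, rfl, hX2, hY2, heY, hlam⟩ := hsep
      have heX : e ∉ X := fun h5 => disjoint_left.1 hXY h5 heY
      obtain ⟨x0, hx0⟩ := card_pos.1 (show 0 < X.card by omega)
      have hx0Y : x0 ∉ Y := fun h5 => disjoint_left.1 hXY hx0 h5
      have hcu : (X ∪ Y).card = X.card + Y.card := card_union_of_disjoint hXY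
      have hc1 : (insert e X).card = X.card + 1 := card_insert_of_notMem heX
      have hc2 : (insert x0 Y).card = Y.card + 1 := card_insert_of_notMem hx0Y
      have hYne : Y.Nonempty := card_pos.1 (by omega)
      have hXne : X.Nonempty := card_pos.1 (by omega)
      have eX : (insert e X).erase e = X := erase_insert heX
      have hXE : ∀ x ∈ X, x ∈ (X ∪ Y).erase e := fun x hx =>
        mem_erase.2 ⟨fun h5 => heX (h5 ▸ hx), mem_union_left _ hx⟩
      have i1 := ih (insert e X).card (by omega) (part r X Y e) (insert e X) e y s rfl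
        (part_isRk hr hXY (by linarith) heX) (part_conn hXY hc hYne heX)
        (mem_insert_self e X) (by omega) (by
          intro f hf
          rw [eX] at hf
          exact hs f (hXE f hf))
      rw [eX] at i1
      have hdec := two_sum (y := y) hq0 hq1 hr hXY hlam heY hx0 i1.1.ne'
      set A1 := Av q (part r X Y e) y (insert e X) e
      set B1 := Bv q (part r X Y e) y (insert e X) e
      have hex : x0 ≠ e := fun h5 => heX (h5 ▸ hx0)
      have eY : (insert x0 Y).erase e = insert x0 (Y.erase e) := erase_insert_of_ne hex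
      have hx0Ye : x0 ∉ Y.erase e := fun h5 => hx0Y (mem_of_mem_erase h5)
      have hsX : 1 ≤ ∑ x ∈ X, s x := by
        have h5 := (hs x0 (hXE x0 hx0)).1
        exact h5.trans (single_le_sum (fun _ _ => Nat.zero_le _) hx0)
      have hXY' : Disjoint Y X := hXY.symm
      have hc' : Conn r (Y ∪ X) := by
        rw [union_comm]
        exact hc
      have i2 := ih (insert x0 Y).card (by omega) (part r Y X x0) (insert x0 Y) e
        (Function.update y x0 (B1 / A1)) (Function.update s x0 (∑ x ∈ X, s x)) rfl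
        (part_isRk hr hXY' (by rw [union_comm Y X]; linarith) hx0Y)
        (part_conn hXY' hc' hXne hx0Y) (mem_insert_of_mem heY) (by omega) (by
          intro f hf
          rw [eY, mem_insert] at hf
          rcases hf with rfl | hf
          · rw [Function.update_self, Function.update_self]
            refine ⟨hsX, ?_, ?_⟩
            · rw [le_div_iff₀ i1.1]
              exact i1.2.1
            · rw [div_le_iff₀ i1.1]
              exact i1.2.2
          · have h5 : f ≠ x0 := fun h6 => hx0Ye (h6 ▸ hf)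
            rw [Function.update_of_ne h5, Function.update_of_ne h5]
            apply hs f
            rw [mem_erase] at hf ⊢
            exact ⟨hf.1, mem_union_right _ hf.2⟩)
      have hsum : ∑ x ∈ (insert x0 Y).erase e, Function.update s x0 (∑ x ∈ X, s x) x =
          ∑ x ∈ (X ∪ Y).erase e, s x := by
        rw [eY, sum_insert hx0Ye, Function.update_self]
        have e5 : (X ∪ Y).erase e = X ∪ Y.erase e := by
          rw [erase_union_distrib, erase_eq_of_notMem heX]
        rw [e5, sum_union (hXY.mono_right (erase_subset e Y))]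
        congr 1
        apply sum_congr rfl
        intro x hx
        have h5 : x ≠ x0 := fun h6 => hx0Ye (h6 ▸ hx)
        rw [Function.update_of_ne h5]
      rw [hsum] at i2
      rw [hdec.1, hdec.2]
      refine ⟨mul_pos i1.1 i2.1, ?_, ?_⟩
      · have := mul_le_mul_of_nonneg_left i2.2.1 i1.1.le
        linarith
      · have := mul_le_mul_of_nonneg_left i2.2.2 i1.1.le
        linarith

end Pool.Agent.H257R2.Tutte
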