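import Pool.Agent.H257R2.Tutte.Iter

set_option autoImplicit false

namespace Pool.Agent.H257R2.Tutte

open Finset Filter Topology

/-- `α = 1 + v⋄⁻` in terms of `q` -/
structure Par (q α : ℝ) : Prop where
  h1 : -1 < α
  h2 : α < -1 / 3
  hq : q = (1 - α) ^ 2 * (1 + α)
  q1 : q ≠ 1

section

variable {q α : ℝ}

theorem Par.q0 (h : Par q α) : 0 < q := by
  rw [h.hq]
  have h1 := h.h1
  have h2 := h.h2
  have : 0 < 1 + α := by linarith
  have : 0 < 1 - α := by linarith
  positivity

theorem Par.one_sub (h : Par q α) : 1 - q = α * (1 + α - α ^ 2) := by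
  rw [h.hq]
  ring

theorem Par.dl_alpha (h : Par q α) : dl q α = α ^ 2 := by
  unfold dl
  have h2 := h.h2
  have : 1 - α ≠ 0 := by
    have : 0 < 1 - α := by linarith
    exact this.ne'
  rw [h.hq]
  field_simp
  ring

theorem Par.dl_ell (h : Par q α) : dl q (1 + α - α ^ 2) = (1 + α - α ^ 2) / α := by
  unfold dl
  have h2 := h.h2
  have e1 : 1 - α ≠ 0 := by
    have : 0 < 1 - α := by linarith
    exact this.ne'
  have e2 : α ≠ 0 := by
    intro h3
    rw [h3] at h2
    norm_num at h2
  have e3 : 1 - (1 + α - α ^ 2) = -(α * (1 - α)) := by ring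
  rw [e3, h.hq]
  field_simp
  ring

theorem Par.ell_lt_one (h : Par q α) : 1 + α - α ^ 2 < 1 := by
  nlinarith [h.h1, h.h2]

theorem Par.ell_div_lt_one (h : Par q α) : (1 + α - α ^ 2) / α < 1 := by
  have h2 := h.h2
  have h3 : α < 0 := by linarith
  rw [div_lt_iff_of_neg h3]
  nlinarith [h.h1]

theorem Par.dl_ell_div (h : Par q α) : dl q ((1 + α - α ^ 2) / α) = 1 + α - α ^ 2 := by
  rw [← h.dl_ell]
  exact dl_dl h.q0 h.ell_lt_one

theorem Par.ell_sign (h : Par q α) :
    (q < 1 → 1 + α - α ^ 2 < 0 ∧ 0 < (1 + α - α ^ 2) / α) ∧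
    (1 < q → 0 < 1 + α - α ^ 2 ∧ (1 + α - α ^ 2) / α < 0) := by
  have h2 := h.h2
  have h3 : α < 0 := by linarith
  have h4 := h.one_sub
  constructor
  · intro h5
    have h6 : 1 + α - α ^ 2 < 0 := by
      by_contra hcon
      rw [not_lt] at hcon
      nlinarith
    exact ⟨h6, div_pos_of_neg_of_neg h6 h3⟩
  · intro h5
    have h6 : 0 < 1 + α - α ^ 2 := by
      by_contra hcon
      rw [not_lt] at hcon
      nlinarith
    exact ⟨h6, div_neg_of_pos_of_neg h6 h3⟩

/-- key identity for `α x - D x` -/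
theorem Par.key (h : Par q α) {x : ℝ} (hx : x < 1) :
    (α * x - dl q x) * (1 - x) = -(α * x - (1 + α - α ^ 2)) * (x - α) := by
  unfold dl
  have e1 : 1 - x ≠ 0 := by
    have : 0 < 1 - x := by linarith
    exact this.ne'
  have e2 : (α * x - (1 - q / (1 - x))) * (1 - x) = (α * x - 1) * (1 - x) + q := by
    field_simp
    ring
  rw [e2, h.hq]
  ring

theorem Par.sq_lt (h : Par q α) {a : ℝ} (h1 : α < a) (h2 : a ≤ -1 / 3) : a ^ 2 < dl q a := by
  unfold dl
  have h3 : 0 < 1 - a := by linarith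
  have h5 : q < (1 - a ^ 2) * (1 - a) := by
    rw [h.hq]
    have h6 : 0 < (a - α) * (-1 - (a + α) + (a ^ 2 + a * α + α ^ 2)) := by
      apply mul_pos (by linarith)
      nlinarith [h.h1, h.h2, mul_nonneg (sub_nonneg.2 h2) (sub_nonneg.2 h2),
        mul_nonneg (sub_nonneg.2 h2) (sub_nonneg.2 h.h2.le)]
    nlinarith
  have h4 : q / (1 - a) < 1 - a ^ 2 := by
    rw [div_lt_iff₀ h3]
    exact h5
  linarith

theorem Par.base (h : Par q α) {a : ℝ} (h1 : α < a) (h2 : a ≤ -1 / 3) :
    Base q a (dl q a) (max (dl q a) (1 / 2)) where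
  q0 := h.q0
  q1 := h.q1
  a1 := h.h1.trans h1
  a0 := by
    rw [lt_min_iff]
    refine ⟨by linarith, ?_⟩
    rw [h.hq]
    nlinarith [h.h1, h.h2, mul_nonneg (sub_nonneg.2 h.h1.le) (sub_nonneg.2 h.h2.le),
      mul_nonneg (mul_nonneg (sub_nonneg.2 h.h1.le) (sub_nonneg.2 h.h2.le)) (sub_nonneg.2 h.h1.le),
      sq_nonneg (α + 1 / 3), mul_nonneg (sq_nonneg (α + 1 / 3)) (sub_nonneg.2 h.h1.le)]
  hb := rfl
  ab := (h.sq_lt h1 h2).le
  k0 := le_max_right _ _
  k1 := by
    rw [max_lt_iff]
    exact ⟨dl_lt_one h.q0 (by linarith), by norm_num⟩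
  kb := le_max_left _ _

/-- above the threshold the map is strictly decreasing -/
theorem Par.Fm_lt (h : Par q α) {a b κ : ℝ} (hB : Base q a b κ) (h1 : α < a)
    {U : ℝ} (hU : max (1 + α - α ^ 2) ((1 + α - α ^ 2) / α) ≤ U) (hUb : U ≤ b) :
    Fm q a b κ U < U := by
  have h2 := h.h2
  have h3 : α < 0 := by linarith
  have hU1 : U < 1 := hUb.trans_lt hB.b1
  have hq0 := h.q0
  have hl1 : 1 + α - α ^ 2 ≤ U := (le_max_left _ _).trans hU
  have hl2 : (1 + α - α ^ 2) / α ≤ U := (le_max_right _ _).trans hU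
  have hs := h.ell_sign
  have ha0 := hB.aneg
  have hb0 := hB.bpos
  have hos := h.one_sub
  -- U is above c1
  have hUc : max 0 (1 - q) < U := by
    rcases lt_or_gt_of_ne h.q1 with h5 | h5
    · obtain ⟨h6, h7⟩ := hs.1 h5
      rw [max_eq_right (by linarith)]
      have h8 : 1 - q < (1 + α - α ^ 2) / α := by
        rw [hos, lt_div_iff_of_neg h3]
        nlinarith [h.h1]
      linarith
    · obtain ⟨h6, h7⟩ := hs.2 h5
      rw [max_eq_left (by linarith)]
      linarith
  have hU0 : 0 < U := (le_max_left _ _).trans_lt hUc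
  have hD0 : dl q U < min 0 (1 - q) := by
    rw [← dl_c1 h.q0]
    exact dl_strictAnti h.q0 hU1 hUc
  have hDneg : dl q U < 0 := hD0.trans_le (min_le_left _ _)
  have hDa : a ≤ dl q U := by
    have := dl_anti h.q0 hB.b1 hUb
    rwa [← hB.hb, dl_dl h.q0 (by linarith)] at this
  have hDD : dl q (dl q U) = U := dl_dl h.q0 hU1
  -- the two key inequalities
  have k1 : dl q U < a * U := by
    have h5 := h.key hU1
    have h6 : 0 ≤ -(α * U - (1 + α - α ^ 2)) * (U - α) := by
      apply mul_nonneg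
      · have : 1 + α - α ^ 2 ≥ α * U := by
          have := (div_le_iff_of_neg h3).1 hl2
          linarith
        linarith
      · linarith
    rw [← h5] at h6
    have h7 : 0 ≤ α * U - dl q U := by
      by_contra hcon
      rw [not_le] at hcon
      have := mul_neg_of_neg_of_pos hcon (show 0 < 1 - U by linarith)
      linarith
    nlinarith
  have k2 : a * dl q U < U := by
    set V := dl q U with hV
    have hV1 : V < 1 := by linarith
    have h5 := h.key hV1
    have hVl : (1 + α - α ^ 2) - α * V ≤ 0 := by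
      -- V ≤ D (ℓ) = ℓ / α
      have h8 : V ≤ (1 + α - α ^ 2) / α := by
        rw [← h.dl_ell]
        exact dl_anti hq0 hU1 hl1
      have := (le_div_iff_of_neg h3).1 h8
      linarith
    have h6 : -(α * V - (1 + α - α ^ 2)) * (V - α) ≤ 0 := by
      have h9 : 0 ≤ V - α := by linarith
      have : -(α * V - (1 + α - α ^ 2)) = (1 + α - α ^ 2) - α * V := by ring
      rw [this]
      exact mul_nonpos_of_nonpos_of_nonneg hVl h9
    rw [← h5] at h6
    have h7 : α * V - dl q V ≤ 0 := by
      by_contra hcon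
      rw [not_le] at hcon
      have := mul_pos hcon (show 0 < 1 - V by linarith)
      linarith
    rw [hDD] at h7
    nlinarith
  have hk := hB.k0
  have hk1 := hB.k1
  unfold Fm
  refine max_lt (max_lt ?_ k2) (max_lt (max_lt ?_ ?_) (max_lt ?_ ?_))
  · nlinarith [hB.b1]
  · have h5 : a * U < 1 := by nlinarith
    have := dl_strictAnti hq0 h5 k1
    rwa [hDD] at this
  · have h5 : b * dl q U < 1 := by nlinarith
    have h6 : dl q U < b * dl q U := by nlinarith [hB.b1]
    have := dl_strictAnti hq0 h5 h6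
    rwa [hDD] at this
  · nlinarith
  · have h8 : (1 - κ) * min 0 (1 - q) ≤ 0 :=
      mul_nonpos_of_nonneg_of_nonpos (by linarith) (min_le_left _ _)
    have h9 : κ * dl q U ≤ 0 := mul_nonpos_of_nonneg_of_nonpos (by linarith) hDneg.le
    have h5 : (1 - κ) * min 0 (1 - q) + κ * dl q U < 1 := by linarith
    have h6 : dl q U < (1 - κ) * min 0 (1 - q) + κ * dl q U := by nlinarith
    have := dl_strictAnti hq0 h5 h6
    rwa [hDD] at this

/-- in the good region the partition function has the right sign -/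
theorem Par.good (h : Par q α) {y Y u : ℝ} (hy1 : α < y) (hy2 : y < α ^ 2)
    (hu : u < max (1 + α - α ^ 2) ((1 + α - α ^ 2) / α)) (hu1 : u < 1)
    (h1 : dl q u ≤ Y) (h2 : Y ≤ u) :
    (q < 1 → y * Y < 1 - q) ∧ (1 < q → 1 - q < y * Y) := by
  have h2' := h.h2
  have h3 : α < 0 := by linarith
  have hs := h.ell_sign
  have hos := h.one_sub
  have hq0 := h.q0
  constructor
  · intro h5
    obtain ⟨h6, h7⟩ := hs.1 h5
    rw [max_eq_right (by linarith)] at hu
    have h8 : 1 + α - α ^ 2 < Y := by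
      have := dl_strictAnti hq0 h.ell_div_lt_one hu
      rw [h.dl_ell_div] at this
      linarith
    have h9 : α * Y > 1 + α - α ^ 2 := by
      have h10 : Y < (1 + α - α ^ 2) / α := by linarith
      have := (lt_div_iff_of_neg h3).1 h10
      linarith
    rw [hos]
    rcases le_total 0 Y with h10 | h10
    · -- y Y ≤ α² Y < α ℓ
      nlinarith
    · nlinarith
  · intro h5
    obtain ⟨h6, h7⟩ := hs.2 h5
    rw [max_eq_left (by linarith)] at hu
    have h8 : (1 + α - α ^ 2) / α < Y := by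
      have := dl_strictAnti hq0 h.ell_lt_one hu
      rw [h.dl_ell] at this
      linarith
    have h9 : α * Y < 1 + α - α ^ 2 := by
      have := (div_lt_iff_of_neg h3).1 h8
      linarith
    have h10 : Y < 1 + α - α ^ 2 := by linarith
    rw [hos]
    rcases le_total 0 Y with h11 | h11
    · nlinarith
    · nlinarith

end

end Pool.Agent.H257R2.Tutte
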