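import Mathlib

set_option autoImplicit false

/-!
Rank functions of matroids on finite sets, connectivity, contraction and 2-sums.
-/

namespace Pool.Agent.H257R2.Tutte

open Finset

variable {E : Type} [DecidableEq E]

/-- integer valued matroid rank functions -/
structure IsRk (r : Finset E → ℤ) : Prop where
  empty : r ∅ = 0
  mono : ∀ {A B : Finset E}, A ⊆ B → r A ≤ r B
  single : ∀ e, r {e} ≤ 1
  submod : ∀ A B, r (A ∪ B) + r (A ∩ B) ≤ r A + r B

theorem IsRk.nonneg {r : Finset E → ℤ} (hr : IsRk r) (A : Finset E) : 0 ≤ r A := by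
  rw [← hr.empty]
  exact hr.mono (empty_subset A)

theorem IsRk.union_le {r : Finset E → ℤ} (hr : IsRk r) (A B : Finset E) :
    r (A ∪ B) ≤ r A + r B := by
  have h1 := hr.submod A B
  have h2 := hr.nonneg (A ∩ B)
  linarith

theorem IsRk.insert_le {r : Finset E → ℤ} (hr : IsRk r) (e : E) (A : Finset E) :
    r (insert e A) ≤ r A + 1 := by
  have h1 := hr.union_le {e} A
  have h2 := hr.single e
  rw [← insert_eq] at h1
  linarith

/-- connected: no proper nonempty subset of `S` is a separator -/
def Conn (r : Finset E → ℤ) (S : Finset E) : Prop :=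
  ∀ B, B ⊆ S → B.Nonempty → B ≠ S → r S + 1 ≤ r B + r (S \ B)

theorem Conn.erase_rank {r : Finset E → ℤ} (hr : IsRk r) {S : Finset E} (hc : Conn r S)
    (h2 : 2 ≤ S.card) {e : E} (he : e ∈ S) : r {e} = 1 ∧ r (S.erase e) = r S := by
  have h1 : ({e} : Finset E) ≠ S := by
    intro h
    rw [← h, card_singleton] at h2
    omega
  have h3 := hc {e} (singleton_subset_iff.2 he) (singleton_nonempty e) h1
  rw [sdiff_singleton_eq_erase] at h3
  have h4 := hr.single e
  have h5 := hr.mono (erase_subset e S)
  constructor <;> linarith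

/-- there is no 2-separation -/
def Irr (r : Finset E → ℤ) (S : Finset E) : Prop :=
  ∀ X, X ⊆ S → 2 ≤ X.card → 2 ≤ (S \ X).card → r S + 2 ≤ r X + r (S \ X)

/-- contraction of the element `f` -/
def ctr (r : Finset E → ℤ) (f : E) (A : Finset E) : ℤ := r (insert f A) - r {f}

theorem IsRk.ctr {r : Finset E → ℤ} (hr : IsRk r) (f : E) : IsRk (ctr r f) where
  empty := by
    unfold Tutte.ctr
    rw [insert_empty_eq]
    ring
  mono := by
    intro A B h
    unfold Tutte.ctr
    have := hr.mono (insert_subset_insert f h)
    linarith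
  single := by
    intro e
    unfold Tutte.ctr
    have h1 := hr.insert_le e {f}
    rw [pair_comm] at h1
    linarith
  submod := by
    intro A B
    unfold Tutte.ctr
    have h1 := hr.submod (insert f A) (insert f B)
    rw [← insert_inter_distrib, ← insert_union_distrib] at h1
    linarith

theorem conn_erase {r : Finset E → ℤ} (hr : IsRk r) {S : Finset E} (h : Irr r S)
    (h4 : 4 ≤ S.card) {f : E} (hf : f ∈ S) : Conn r (S.erase f) := by
  intro B hB hne hneS
  by_contra hlt
  rw [not_le] at hlt
  have hfB : f ∉ B := fun h1 => (notMem_erase f S) (hB h1)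
  have hBS : B ⊆ S := hB.trans (erase_subset f S)
  have hc1 : (S.erase f \ B).card = S.card - 1 - B.card := by
    rw [card_sdiff_of_subset hB, card_erase_of_mem hf]
  have hBpos : 1 ≤ B.card := card_pos.2 hne
  have hBlt : B.card < (S.erase f).card := card_lt_card (Finset.ssubset_iff_subset_ne.2 ⟨hB, hneS⟩)
  rw [card_erase_of_mem hf] at hBlt
  have hmon := hr.mono (erase_subset f S)
  rcases Nat.lt_or_ge B.card 2 with h2 | h2
  · have e1 : S \ (S.erase f \ B) = insert f B := by
      ext x
      simp only [mem_sdiff, mem_erase, mem_insert, not_and, not_not]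
      constructor
      · rintro ⟨h1, h3⟩
        by_cases hx : x = f
        · exact Or.inl hx
        · exact Or.inr (h3 ⟨hx, h1⟩)
      · rintro (rfl | h1)
        · exact ⟨hf, fun h3 => absurd rfl h3.1⟩
        · exact ⟨hBS h1, fun _ => h1⟩
    have e2 : (S \ (S.erase f \ B)).card = B.card + 1 := by
      rw [e1, card_insert_of_notMem hfB]
    have h5 := h (S.erase f \ B) (sdiff_subset.trans (erase_subset f S)) (by omega) (by omega)
    rw [e1] at h5
    have h6 := hr.insert_le f B
    linarith
  · have e1 : S \ B = insert f (S.erase f \ B) := by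
      ext x
      simp only [mem_sdiff, mem_erase, mem_insert]
      constructor
      · rintro ⟨h1, h3⟩
        by_cases hx : x = f
        · exact Or.inl hx
        · exact Or.inr ⟨⟨hx, h1⟩, h3⟩
      · rintro (rfl | ⟨⟨-, h1⟩, h3⟩)
        · exact ⟨hf, hfB⟩
        · exact ⟨h1, h3⟩
    have e2 : (S \ B).card = (S.erase f \ B).card + 1 := by
      rw [e1, card_insert_of_notMem]
      simp
    have h5 := h B hBS h2 (by omega)
    rw [e1] at h5
    have h6 := hr.insert_le f (S.erase f \ B)
    linarith

theorem conn_ctr {r : Finset E → ℤ} (hr : IsRk r) {S : Finset E} (h : Irr r S)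
    (h4 : 4 ≤ S.card) {f : E} (hf : f ∈ S) (hf1 : r {f} = 1) : Conn (ctr r f) (S.erase f) := by
  intro B hB hne hneS
  by_contra hlt
  rw [not_le] at hlt
  have hfB : f ∉ B := fun h1 => (notMem_erase f S) (hB h1)
  have hBS : B ⊆ S := hB.trans (erase_subset f S)
  have hc1 : (S.erase f \ B).card = S.card - 1 - B.card := by
    rw [card_sdiff_of_subset hB, card_erase_of_mem hf]
  have hBpos : 1 ≤ B.card := card_pos.2 hne
  have hBlt : B.card < (S.erase f).card := card_lt_card (Finset.ssubset_iff_subset_ne.2 ⟨hB, hneS⟩)
  rw [card_erase_of_mem hf] at hBlt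
  unfold ctr at hlt
  rw [insert_erase hf, hf1] at hlt
  rcases Nat.lt_or_ge B.card 2 with h2 | h2
  · have e1 : S \ (S.erase f \ B) = insert f B := by
      ext x
      simp only [mem_sdiff, mem_erase, mem_insert, not_and, not_not]
      constructor
      · rintro ⟨h1, h3⟩
        by_cases hx : x = f
        · exact Or.inl hx
        · exact Or.inr (h3 ⟨hx, h1⟩)
      · rintro (rfl | h1)
        · exact ⟨hf, fun h3 => absurd rfl h3.1⟩
        · exact ⟨hBS h1, fun _ => h1⟩
    have e2 : (S \ (S.erase f \ B)).card = B.card + 1 := by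
      rw [e1, card_insert_of_notMem hfB]
    have h5 := h (S.erase f \ B) (sdiff_subset.trans (erase_subset f S)) (by omega) (by omega)
    rw [e1] at h5
    have h6 := hr.mono (subset_insert f (S.erase f \ B))
    linarith
  · have e1 : S \ B = insert f (S.erase f \ B) := by
      ext x
      simp only [mem_sdiff, mem_erase, mem_insert]
      constructor
      · rintro ⟨h1, h3⟩
        by_cases hx : x = f
        · exact Or.inl hx
        · exact Or.inr ⟨⟨hx, h1⟩, h3⟩
      · rintro (rfl | ⟨⟨-, h1⟩, h3⟩)
        · exact ⟨hf, hfB⟩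
        · exact ⟨h1, h3⟩
    have e2 : (S \ B).card = (S.erase f \ B).card + 1 := by
      rw [e1, card_insert_of_notMem]
      simp
    have h5 := h B hBS h2 (by omega)
    rw [e1] at h5
    have h6 := hr.mono (subset_insert f B)
    linarith

/-- one side of a 2-separation `(X, Y)`, with the new element called `p` -/
def part (r : Finset E → ℤ) (X Y : Finset E) (p : E) (A : Finset E) : ℤ :=
  if p ∈ A then r ((A ∩ X) ∪ Y) - r Y + 1 else r (A ∩ X)

/-- the local connectivity is monotone -/
theorem IsRk.conn_mono {r : Finset E → ℤ} (hr : IsRk r) {X Y B : Finset E}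
    (hB : B ⊆ X) (hXY : Disjoint X Y) : r (X ∪ Y) + r B ≤ r (B ∪ Y) + r X := by
  have h1 := hr.submod (B ∪ Y) X
  have e1 : (B ∪ Y) ∪ X = X ∪ Y := by
    ext x
    simp only [mem_union]
    constructor
    · rintro ((h | h) | h)
      · exact Or.inl (hB h)
      · exact Or.inr h
      · exact Or.inl h
    · rintro (h | h)
      · exact Or.inr h
      · exact Or.inl (Or.inr h)
  have e2 : (B ∪ Y) ∩ X = B := by
    ext x
    simp only [mem_union, mem_inter]
    constructor
    · rintro ⟨h | h, h'⟩
      · exact h
      · exact absurd h (disjoint_left.1 hXY h')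
    · intro h
      exact ⟨Or.inl h, hB h⟩
  rw [e1, e2] at h1
  exact h1

theorem part_isRk {r : Finset E → ℤ} (hr : IsRk r) {X Y : Finset E} (hXY : Disjoint X Y)
    (h : r X + r Y ≤ r (X ∪ Y) + 1) {p : E} (hp : p ∉ X) : IsRk (part r X Y p) where
  empty := by
    unfold part
    simp [hr.empty]
  mono := by
    intro A B hAB
    unfold part
    have h1 : A ∩ X ⊆ B ∩ X := inter_subset_inter_right hAB
    by_cases hA : p ∈ A
    · rw [if_pos hA, if_pos (hAB hA)]
      have := hr.mono (union_subset_union_left (t := Y) h1)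
      linarith
    · rw [if_neg hA]
      by_cases hB : p ∈ B
      · rw [if_pos hB]
        have h2 := hr.conn_mono (B := B ∩ X) inter_subset_right hXY
        have h3 := hr.mono h1
        linarith
      · rw [if_neg hB]
        exact hr.mono h1
  single := by
    intro e
    unfold part
    by_cases he : p ∈ ({e} : Finset E)
    · rw [if_pos he]
      rw [mem_singleton] at he
      have e1 : ({e} : Finset E) ∩ X = ∅ := by
        rw [← he]
        exact singleton_inter_of_notMem hp
      rw [e1, empty_union]
      linarith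
    · rw [if_neg he]
      exact (hr.mono inter_subset_left).trans (hr.single e)
  submod := by
    intro A B
    unfold part
    have e1 : (A ∪ B) ∩ X = (A ∩ X) ∪ (B ∩ X) := union_inter_distrib_right A B X
    have e2 : (A ∩ B) ∩ X = (A ∩ X) ∩ (B ∩ X) := by
      ext x
      simp only [mem_inter]
      tauto
    have hA' : Disjoint (A ∩ X) Y := hXY.mono_left inter_subset_right
    have hB' : Disjoint (B ∩ X) Y := hXY.mono_left inter_subset_right
    by_cases hA : p ∈ A
    · by_cases hB : p ∈ B
      · rw [if_pos hA, if_pos hB, if_pos (mem_union_left _ hA), if_pos (mem_inter.2 ⟨hA, hB⟩),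
          e1, e2]
        have h1 := hr.submod (A ∩ X ∪ Y) (B ∩ X ∪ Y)
        have e3 : (A ∩ X ∪ Y) ∪ (B ∩ X ∪ Y) = A ∩ X ∪ B ∩ X ∪ Y := by
          ext x
          simp only [mem_union]
          tauto
        have e4 : (A ∩ X ∪ Y) ∩ (B ∩ X ∪ Y) = (A ∩ X) ∩ (B ∩ X) ∪ Y := by
          ext x
          simp only [mem_union, mem_inter]
          tauto
        rw [e3, e4] at h1
        linarith
      · rw [if_pos hA, if_neg hB, if_pos (mem_union_left _ hA),
          if_neg (fun h => hB (mem_inter.1 h).2), e1, e2]
        have h1 := hr.submod (A ∩ X ∪ Y) (B ∩ X)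
        have e3 : (A ∩ X ∪ Y) ∪ (B ∩ X) = A ∩ X ∪ B ∩ X ∪ Y := by
          ext x
          simp only [mem_union]
          tauto
        have e4 : (A ∩ X ∪ Y) ∩ (B ∩ X) = (A ∩ X) ∩ (B ∩ X) := by
          rw [union_inter_distrib_right, disjoint_iff_inter_eq_empty.1 hB'.symm, union_empty]
        rw [e3, e4] at h1
        linarith
    · by_cases hB : p ∈ B
      · rw [if_neg hA, if_pos hB, if_pos (mem_union_right _ hB),
          if_neg (fun h => hA (mem_inter.1 h).1), e1, e2]
        have h1 := hr.submod (A ∩ X) (B ∩ X ∪ Y)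
        have e3 : (A ∩ X) ∪ (B ∩ X ∪ Y) = A ∩ X ∪ B ∩ X ∪ Y := by
          ext x
          simp only [mem_union]
          tauto
        have e4 : (A ∩ X) ∩ (B ∩ X ∪ Y) = (A ∩ X) ∩ (B ∩ X) := by
          rw [inter_union_distrib_left, disjoint_iff_inter_eq_empty.1 hA', union_empty]
        rw [e3, e4] at h1
        linarith
      · rw [if_neg hA, if_neg hB, if_neg (fun h => (mem_union.1 h).elim hA hB),
          if_neg (fun h => hA (mem_inter.1 h).1), e1, e2]
        exact hr.submod _ _

theorem part_of_subset {r : Finset E → ℤ} {X Y : Finset E} {p : E} (hp : p ∉ X) {B : Finset E}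
    (hB : B ⊆ X) : part r X Y p B = r B := by
  unfold part
  rw [if_neg (fun h => hp (hB h)), inter_eq_left.2 hB]

theorem part_of_insert {r : Finset E → ℤ} {X Y : Finset E} {p : E} (hp : p ∉ X) {B : Finset E}
    (hB : B ⊆ X) : part r X Y p (insert p B) = r (B ∪ Y) - r Y + 1 := by
  unfold part
  rw [if_pos (mem_insert_self p B), insert_inter_of_notMem hp, inter_eq_left.2 hB]

theorem part_conn {r : Finset E → ℤ} {X Y : Finset E} (hXY : Disjoint X Y)
    (hc : Conn r (X ∪ Y)) (hY : Y.Nonempty) {p : E} (hp : p ∉ X) :
    Conn (part r X Y p) (insert p X) := by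
  have key : ∀ B, B ⊆ X → B.Nonempty →
      part r X Y p (insert p X) + 1 ≤ part r X Y p B + part r X Y p (insert p (X \ B)) := by
    intro B hB hne
    rw [part_of_insert hp (Subset.refl X), part_of_subset hp hB, part_of_insert hp sdiff_subset]
    have h1 := hc B (hB.trans subset_union_left) hne (by
      intro h
      obtain ⟨z, hz⟩ := hY
      have h2 : z ∈ B := by
        rw [h]
        exact mem_union_right _ hz
      exact disjoint_left.1 hXY (hB h2) hz)
    have e1 : (X ∪ Y) \ B = X \ B ∪ Y := by
      rw [union_sdiff_distrib, sdiff_eq_self_of_disjoint (hXY.mono_left hB).symm]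
    rw [e1] at h1
    linarith
  intro B hB hne hneS
  by_cases hpB : p ∈ B
  · have e1 : insert p X \ B ⊆ X := by
      intro x hx
      rw [mem_sdiff, mem_insert] at hx
      rcases hx.1 with h | h
      · exact absurd (h ▸ hpB) hx.2
      · exact h
    have e2 : (insert p X \ B).Nonempty := by
      rw [nonempty_iff_ne_empty]
      intro h
      exact hneS (Subset.antisymm hB (sdiff_eq_empty_iff_subset.1 h))
    have e3 : insert p (X \ (insert p X \ B)) = B := by
      ext x
      simp only [mem_insert, mem_sdiff, not_and, not_not]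
      constructor
      · rintro (rfl | ⟨h1, h2⟩)
        · exact hpB
        · exact h2 (Or.inr h1)
      · intro h
        rcases mem_insert.1 (hB h) with h1 | h1
        · exact Or.inl h1
        · exact Or.inr ⟨h1, fun _ => h⟩
    have h1 := key _ e1 e2
    rw [e3] at h1
    linarith
  · have e1 : B ⊆ X := by
      intro x hx
      rcases mem_insert.1 (hB hx) with h | h
      · exact absurd (h ▸ hx) hpB
      · exact h
    have e3 : insert p X \ B = insert p (X \ B) := insert_sdiff_of_notMem X hpB
    rw [e3]
    exact key B e1 hne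

end Pool.Agent.H257R2.Tutte
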