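import Pool.Agent.H257R2.Tutte.Param

set_option autoImplicit false

/-!
The theorem for rank functions of connected matroids.
-/

namespace Pool.Agent.H257R2.Tutte

open Finset Filter Topology

/-- all connected matroids with at least `m` elements and weights in `[a, b]` have the right sign -/
def AllGood (q a b : ℝ) (m : ℕ) : Prop :=
  ∀ (E : Type) [DecidableEq E] (r : Finset E → ℤ) (S : Finset E) (y : E → ℝ), IsRk r →
    Conn r S → m ≤ S.card → (∀ e ∈ S, a ≤ y e ∧ y e ≤ b) →
    (q < 1 → 0 < zf q r y S) ∧ (1 < q → zf q r y S < 0)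

theorem sum_one_erase {E : Type} [DecidableEq E] {S : Finset E} {e : E} (he : e ∈ S) :
    ∑ _x ∈ S.erase e, 1 = S.card - 1 := by
  rw [sum_const, smul_eq_mul, mul_one, card_erase_of_mem he]

theorem allGood_of_par {q α : ℝ} (h : Par q α) {a : ℝ} (h1 : α < a) (h2 : a ≤ -1 / 3) :
    ∃ m, AllGood q a (dl q a) m := by
  have hB := h.base h1 h2
  obtain ⟨k, hk⟩ := Us_lt hB (τ := max (1 + α - α ^ 2) ((1 + α - α ^ 2) / α))
    (fun U hU _ hUb => h.Fm_lt hB h1 hU hUb)
  refine ⟨2 ^ k + 2, ?_⟩
  intro E _ r S y hr hc hm hy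
  have hpos : 0 < 2 ^ k := by positivity
  obtain ⟨e, he⟩ := card_pos.1 (show 0 < S.card by omega)
  have hS := Us_seq hB
  have hmain := main_induction hS.khyp S.card r S e y (fun _ => 1) rfl hr hc he (by omega) (by
    intro f hf
    have hf' := hy f (mem_of_mem_erase hf)
    refine ⟨le_rfl, ?_, ?_⟩
    · have e1 : Nat.log 2 1 = 0 := by simp
      have e2 : Us q a (dl q a) (max (dl q a) (1 / 2)) 0 = dl q a := rfl
      rw [e1, e2, dl_dl h.q0 (by linarith)]
      exact hf'.1
    · have e1 : Nat.log 2 1 = 0 := by simp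
      have e2 : Us q a (dl q a) (max (dl q a) (1 / 2)) 0 = dl q a := rfl
      rw [e1, e2]
      exact hf'.2)
  rw [sum_one_erase he] at hmain
  set A := Av q r y S e with hA
  set B := Bv q r y S e with hB'
  set u := Us q a (dl q a) (max (dl q a) (1 / 2)) (Nat.log 2 (S.card - 1)) with hu
  obtain ⟨hA0, hlo, hhi⟩ := hmain
  have hlog : k ≤ Nat.log 2 (S.card - 1) := by
    apply Nat.le_log_of_pow_le (by norm_num)
    omega
  have hu1 : u < max (1 + α - α ^ 2) ((1 + α - α ^ 2) / α) := (hS.anti hlog).trans_lt hk
  have hu2 : u < 1 := (hS.mem _).1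
  have hbb : dl q a < α ^ 2 := by
    rw [← h.dl_alpha]
    exact dl_strictAnti h.q0 (by linarith) h1
  have hye := hy e he
  have hg := h.good (y := y e) (Y := B / A) (u := u) (by linarith) (by linarith) hu1 hu2
    (by rw [le_div_iff₀ hA0]; exact hlo) (by rw [div_le_iff₀ hA0]; exact hhi)
  have hz : zf q r y S = A * (1 - q - y e * (B / A)) := by
    have e9 : A * (1 - q - y e * (B / A)) = A * (1 - q) - y e * (A * (B / A)) := by ring
    rw [zf_eq h.q1 r y he, ← hA, ← hB', e9, mul_div_cancel₀ _ hA0.ne']
  rw [hz]
  constructor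
  · intro h5
    apply mul_pos hA0
    have := hg.1 h5
    linarith
  · intro h5
    apply mul_neg_of_pos_of_neg hA0
    have := hg.2 h5
    linarith

theorem allGood_small {q a b κ : ℝ} (h : Base q a b κ) (h1 : q < 1 → a ^ 2 < 1 - q ∧ b ^ 2 < 1 - q)
    (h2 : 1 < q → 1 - q < a * b) : AllGood q a b 2 := by
  intro E _ r S y hr hc hm hy
  obtain ⟨e, he⟩ := card_pos.1 (show 0 < S.card by omega)
  have hS := h.const
  have ha := h.aneg
  have hb := h.bpos
  have hba : dl q b = a := by
    rw [← h.hb]
    exact dl_dl h.q0 (by linarith)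
  have hmain := main_induction hS.khyp S.card r S e y (fun _ => 1) rfl hr hc he (by omega) (by
    intro f hf
    have hf' := hy f (mem_of_mem_erase hf)
    refine ⟨le_rfl, ?_, hf'.2⟩
    rw [hba]
    exact hf'.1)
  set A := Av q r y S e with hA
  set B := Bv q r y S e with hB'
  obtain ⟨hA0, hlo, hhi⟩ := hmain
  rw [hba] at hlo
  have hlo' : a ≤ B / A := by
    rw [le_div_iff₀ hA0]
    exact hlo
  have hhi' : B / A ≤ b := by
    rw [div_le_iff₀ hA0]
    exact hhi
  have hye := hy e he
  have hz : zf q r y S = A * (1 - q - y e * (B / A)) := by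
    have e9 : A * (1 - q - y e * (B / A)) = A * (1 - q) - y e * (A * (B / A)) := by ring
    rw [zf_eq h.q1 r y he, ← hA, ← hB', e9, mul_div_cancel₀ _ hA0.ne']
  rw [hz]
  obtain ⟨p1, p2⟩ := prod_bounds ha.le hb.le ha.le hb.le hlo' hhi' hye.1 hye.2
  constructor
  · intro h5
    apply mul_pos hA0
    obtain ⟨h6, h7⟩ := h1 h5
    have h8 := p1 (max (b * b) (a * a)) (le_max_left _ _) (le_max_right _ _)
    have h9 : max (b * b) (a * a) < 1 - q := by
      rw [max_lt_iff]
      constructor <;> nlinarith
    have h10 : y e * (B / A) = B / A * y e := mul_comm _ _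
    linarith
  · intro h5
    apply mul_neg_of_pos_of_neg hA0
    have h6 := h2 h5
    have h8 := p2 (a * b) le_rfl (by linarith [mul_comm a b])
    have h10 : y e * (B / A) = B / A * y e := mul_comm _ _
    linarith

/-- an explicit small interval that works for all connected matroids with two or more elements -/
theorem exists_small {q : ℝ} (hq : (0 < q ∧ q < 1) ∨ (1 < q ∧ q < 32 / 27)) :
    ∃ a, -1 / 3 ≤ a ∧ a < 0 ∧ a < dl q a ∧ AllGood q a (dl q a) 2 := by
  rcases hq with ⟨hq0, hq1⟩ | ⟨hq1, hq2⟩
  · -- a = -(1 - q) / 3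
    set c := (1 - q) / 3 with hc
    have c0 : 0 < c := by linarith
    have c1 : c < 1 / 3 := by linarith
    have hqc : q = 1 - 3 * c := by linarith
    have hb : dl q (-c) = 4 * c / (1 + c) := by
      unfold dl
      have : 1 + c ≠ 0 := by positivity
      have e1 : 1 - -c = 1 + c := by ring
      rw [e1, hqc]
      field_simp
      ring
    have hbc : 0 < 1 + c := by linarith
    have hb0 : 0 < 4 * c / (1 + c) := by positivity
    have hb1 : 4 * c / (1 + c) < 1 := by
      rw [div_lt_one hbc]
      linarith
    refine ⟨-c, by linarith, by linarith, by rw [hb]; linarith, ?_⟩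
    have hBase : Base q (-c) (dl q (-c)) (max (dl q (-c)) (1 / 2)) :=
      { q0 := hq0
        q1 := hq1.ne
        a1 := by linarith
        a0 := by
          rw [lt_min_iff]
          constructor <;> linarith
        hb := rfl
        ab := by
          rw [hb, le_div_iff₀ hbc]
          nlinarith
        k0 := le_max_right _ _
        k1 := by
          rw [max_lt_iff, hb]
          exact ⟨hb1, by norm_num⟩
        kb := le_max_left _ _ }
    apply allGood_small hBase
    · intro _
      constructor
      · nlinarith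
      · rw [hb, div_pow, div_lt_iff₀ (by positivity)]
        have h5 : 1 - q = 3 * c := by linarith
        rw [h5]
        have h6 : 0 < c * (3 - c) * (1 - 3 * c) := by
          have : 0 < 3 - c := by linarith
          have : 0 < 1 - 3 * c := by linarith
          positivity
        nlinarith
    · intro h5
      linarith
  · -- a = - min (2 (q - 1)) (1 / 3)
    set p := q - 1 with hp
    have p0 : 0 < p := by linarith
    have p1 : p < 5 / 27 := by linarith
    obtain ⟨c, hc0, hc1, hc2, hc3, hc4⟩ : ∃ c : ℝ, 0 < c ∧ c ≤ 1 / 3 ∧ p < c ∧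
        p ≤ c - c ^ 2 - c ^ 3 ∧ c ^ 2 < p * (1 + 2 * c) := by
      rcases lt_or_ge p (1 / 6) with h | h
      · refine ⟨2 * p, by linarith, by linarith, by linarith, ?_, ?_⟩
        · nlinarith [mul_pos p0 p0]
        · nlinarith [mul_pos p0 p0]
      · refine ⟨1 / 3, by norm_num, le_rfl, by linarith, by norm_num; linarith, ?_⟩
        nlinarith
    have hqp : q = 1 + p := by linarith
    have hbc : 0 < 1 + c := by linarith
    have hb : dl q (-c) = (c - p) / (1 + c) := by
      unfold dl
      have : 1 + c ≠ 0 := hbc.ne'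
      have e1 : 1 - -c = 1 + c := by ring
      rw [e1, hqp]
      field_simp
      ring
    have hb0 : 0 < (c - p) / (1 + c) := div_pos (by linarith) hbc
    have hb1 : (c - p) / (1 + c) < 1 := by
      rw [div_lt_one hbc]
      linarith
    refine ⟨-c, by linarith, by linarith, by rw [hb]; linarith, ?_⟩
    have hBase : Base q (-c) (dl q (-c)) (max (dl q (-c)) (1 / 2)) :=
      { q0 := by linarith
        q1 := by linarith
        a1 := by linarith
        a0 := by
          rw [lt_min_iff]
          constructor <;> linarith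
        hb := rfl
        ab := by
          rw [hb, le_div_iff₀ hbc]
          nlinarith
        k0 := le_max_right _ _
        k1 := by
          rw [max_lt_iff, hb]
          exact ⟨hb1, by norm_num⟩
        kb := le_max_left _ _ }
    apply allGood_small hBase
    · intro h5
      linarith
    · intro _
      rw [hb]
      have h6 : 1 - q = -p := by linarith
      rw [h6, ← mul_div_assoc, lt_div_iff₀ hbc]
      nlinarith

end Pool.Agent.H257R2.Tutte
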