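import Pool.Agent.H257R2.Tutte.RankThm
import Pool.Agent.H257R2.Tutte.Defs

set_option autoImplicit false

namespace Pool.Agent.H257R2.Tutte

open Finset Filter Topology

theorem exists_middleRoot {q : ℝ} (h0 : 0 < q) (h1 : q < 32 / 27) : ∃ v, IsMiddleRoot q v := by
  set p : ℝ → ℝ := fun v => v ^ 3 - 2 * q * v - q ^ 2 with hp
  have hc : ∀ s, ContinuousOn p s := by
    intro s
    rw [hp]
    fun_prop
  set w := Real.sqrt (2 * q / 3) with hw
  have hw2 : w ^ 2 = 2 * q / 3 := Real.sq_sqrt (by positivity)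
  have hw0 : 0 < w := Real.sqrt_pos.2 (by positivity)
  have hw1 : w < 1 := by nlinarith
  have pw : 0 < p (-w) := by
    have e1 : p (-w) = w * (4 * q / 3) - q ^ 2 := by
      have : p (-w) = w * (2 * q - w ^ 2) - q ^ 2 := by
        rw [hp]
        ring
      rw [this, hw2]
      ring
    rw [e1]
    have h2 : (w * (4 / 3)) ^ 2 > q ^ 2 := by
      rw [mul_pow, hw2]
      nlinarith
    have h3 : q < w * (4 / 3) := by
      by_contra hcon
      rw [not_lt] at hcon
      have : (w * (4 / 3)) ^ 2 ≤ q ^ 2 := by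
        apply pow_le_pow_left₀ (by positivity) hcon
      linarith
    nlinarith
  have p0 : p 0 < 0 := by
    rw [hp]
    have : 0 < q ^ 2 := by positivity
    have e1 : (0 : ℝ) ^ 3 - 2 * q * 0 - q ^ 2 = -q ^ 2 := by ring
    change (0 : ℝ) ^ 3 - 2 * q * 0 - q ^ 2 < 0
    rw [e1]
    linarith
  have pm2 : p (-2) < 0 := by
    rw [hp]
    nlinarith
  have p2 : 0 < p 2 := by
    rw [hp]
    nlinarith
  obtain ⟨v, hv, hv0⟩ := intermediate_value_Ioo' (show -w ≤ 0 by linarith) (hc _)
    (show (0 : ℝ) ∈ Set.Ioo (p 0) (p (-w)) from ⟨p0, pw⟩)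
  obtain ⟨v₁, hv₁, hv₁0⟩ := intermediate_value_Ioo (show -2 ≤ -w by linarith) (hc _)
    (show (0 : ℝ) ∈ Set.Ioo (p (-2)) (p (-w)) from ⟨pm2, pw⟩)
  obtain ⟨v₃, hv₃, hv₃0⟩ := intermediate_value_Ioo (show (0 : ℝ) ≤ 2 by norm_num) (hc _)
    (show (0 : ℝ) ∈ Set.Ioo (p 0) (p 2) from ⟨p0, p2⟩)
  exact ⟨v, hv0, ⟨v₁, hv₁.2.trans hv.1, hv₁0⟩, ⟨v₃, hv.2.trans hv₃.1, hv₃0⟩⟩

theorem par_of_middleRoot {q v : ℝ} (hq0 : 0 < q) (hq1 : q ≠ 1) (h : IsMiddleRoot q v) :
    v < 0 ∧ Par q (1 + q / v) := by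
  obtain ⟨h2, ⟨v₁, hv₁, h1⟩, ⟨v₃, hv₃, h3⟩⟩ := h
  have e12 : v₁ ^ 2 + v₁ * v + v ^ 2 = 2 * q := by
    have : (v - v₁) * (v₁ ^ 2 + v₁ * v + v ^ 2 - 2 * q) = 0 := by ring_nf; linarith
    rcases mul_eq_zero.1 this with h4 | h4
    · linarith
    · linarith
  have e23 : v ^ 2 + v * v₃ + v₃ ^ 2 = 2 * q := by
    have : (v₃ - v) * (v ^ 2 + v * v₃ + v₃ ^ 2 - 2 * q) = 0 := by ring_nf; linarith
    rcases mul_eq_zero.1 this with h4 | h4
    · linarith
    · linarith
  have esum : v₁ + v + v₃ = 0 := by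
    have : (v₃ - v₁) * (v₁ + v + v₃) = 0 := by nlinarith
    rcases mul_eq_zero.1 this with h4 | h4
    · linarith
    · exact h4
  have eprod : v₁ * v * v₃ = q ^ 2 := by
    have h4 : v₃ = -v₁ - v := by linarith
    rw [h4]
    nlinarith
  have hv1neg : v₁ < 0 := by linarith
  have hv3pos : 0 < v₃ := by linarith
  have hq2 : 0 < q ^ 2 := by positivity
  have hv : v < 0 := by
    by_contra hcon
    rw [not_lt] at hcon
    have : v₁ * v * v₃ ≤ 0 := by
      apply mul_nonpos_of_nonpos_of_nonneg _ hv3pos.le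
      exact mul_nonpos_of_nonpos_of_nonneg hv1neg.le hcon
    linarith
  refine ⟨hv, ?_, ?_, ?_, hq1⟩
  · have h4 : q * (2 * v + q) = v ^ 3 := by linarith
    have h5 : v ^ 3 < 0 := by
      have : 0 < v * v := mul_pos_of_neg_of_neg hv hv
      nlinarith
    have h6 : 2 * v + q < 0 := by
      by_contra hcon
      rw [not_lt] at hcon
      have := mul_nonneg hq0.le hcon
      linarith
    have h7 : -2 < q / v := by
      rw [lt_div_iff_of_neg hv]
      linarith
    linarith
  · have h7 : q / v < -4 / 3 := by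
      rw [div_lt_iff_of_neg hv]
      have e1 : q * (v₁ ^ 2 + v₁ * v + v ^ 2) = -2 * (v₁ * v * (v₁ + v)) := by
        have : v₁ + v = -v₃ := by linarith
        rw [e12, this]
        nlinarith
      have hS : 0 < v₁ ^ 2 + v₁ * v + v ^ 2 := by
        rw [e12]
        linarith
      by_contra hcon
      rw [not_lt] at hcon
      have h8 : q * (v₁ ^ 2 + v₁ * v + v ^ 2) ≤ -4 / 3 * v * (v₁ ^ 2 + v₁ * v + v ^ 2) :=
        mul_le_mul_of_nonneg_right hcon hS.le
      have h9 : 0 < (-v) * ((v - v₁) * (-(v₁ + 2 * v))) := by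
        apply mul_pos (by linarith)
        apply mul_pos (by linarith)
        linarith
      nlinarith
    linarith
  · have hvne : v ≠ 0 := hv.ne
    have h4 : q * (2 * v + q) = v ^ 3 := by linarith
    have e1 : (1 - (1 + q / v)) ^ 2 * (1 + (1 + q / v)) = q * (q * (2 * v + q)) / v ^ 3 := by
      field_simp
      ring
    rw [e1, h4]
    field_simp

theorem AllGood.mono {q a b : ℝ} {m m' : ℕ} (h : AllGood q a b m) (hm : m ≤ m') :
    AllGood q a b m' := by
  intro E _ r S y hr hc hS hy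
  exact h E r S y hr hc (hm.trans hS) hy

/-- the sequence of intervals -/
theorem exists_seq {q α : ℝ} (hq : (0 < q ∧ q < 1) ∨ (1 < q ∧ q < 32 / 27)) (h : Par q α) :
    ∃ c : ℕ → ℝ, Antitone c ∧ (∀ m, α < c m ∧ c m < 0 ∧ c m < dl q (c m)) ∧
      Tendsto c atTop (𝓝 α) ∧ ∀ m, 2 ≤ m → AllGood q (c m) (dl q (c m)) m := by
  classical
  obtain ⟨a0, ha1, ha0, ha2, ha3⟩ := exists_small hq
  set g : ℕ → ℝ := fun k => if k = 0 then a0 else α + (-1 / 3 - α) / k with hg
  have g0 : g 0 = a0 := by rw [hg]; simp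
  have gs : ∀ k, k ≠ 0 → g k = α + (-1 / 3 - α) / k := by
    intro k hk
    rw [hg]
    simp [hk]
  have hα := h.h2
  have hd : 0 < -1 / 3 - α := by linarith
  have gpos : ∀ k, α < g k := by
    intro k
    by_cases hk : k = 0
    · rw [hk, g0]
      linarith
    · rw [gs k hk]
      have : (0 : ℝ) < k := by positivity
      have := div_pos hd this
      linarith
  have gle : ∀ k, k ≠ 0 → g k ≤ -1 / 3 := by
    intro k hk
    rw [gs k hk]
    have h1 : (1 : ℝ) ≤ k := by
      have : 1 ≤ k := Nat.one_le_iff_ne_zero.2 hk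
      exact_mod_cast this
    have := div_le_self hd.le h1
    linarith
  have ganti : Antitone g := by
    apply antitone_nat_of_succ_le
    intro k
    by_cases hk : k = 0
    · subst hk
      rw [g0]
      exact (gle 1 one_ne_zero).trans ha1
    · rw [gs k hk, gs (k + 1) (Nat.succ_ne_zero k)]
      have h1 : (0 : ℝ) < k := by positivity
      have h2 : (-1 / 3 - α) / ((k + 1 : ℕ) : ℝ) ≤ (-1 / 3 - α) / k := by
        apply div_le_div_of_nonneg_left hd.le h1
        push_cast
        linarith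
      linarith
  have glim : Tendsto g atTop (𝓝 α) := by
    have h1 : Tendsto (fun k : ℕ => α + (-1 / 3 - α) / k) atTop (𝓝 (α + 0)) :=
      tendsto_const_nhds.add (tendsto_const_div_atTop_nhds_zero_nat _)
    rw [add_zero] at h1
    refine h1.congr' ?_
    filter_upwards [eventually_ge_atTop 1] with k hk
    rw [gs k (by omega)]
  have ggood : ∀ k, ∃ m, AllGood q (g k) (dl q (g k)) m := by
    intro k
    by_cases hk : k = 0
    · rw [hk, g0]
      exact ⟨2, ha3⟩
    · exact allGood_of_par h (gpos k) (gle k hk)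
  set P : ℕ → ℕ → Prop := fun m k => AllGood q (g k) (dl q (g k)) m with hP
  set K : ℕ → ℕ := fun m => Nat.findGreatest (P m) m with hK
  have Kmono : Monotone K := by
    intro m m' hmm
    by_cases h1 : K m = 0
    · rw [h1]
      exact Nat.zero_le _
    · have h2 : P m (K m) := Nat.findGreatest_of_ne_zero rfl h1
      have h3 : P m' (K m) := h2.mono hmm
      exact Nat.le_findGreatest ((Nat.findGreatest_le m).trans hmm) h3
  have Klim : Tendsto K atTop atTop := by
    rw [tendsto_atTop]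
    intro k
    obtain ⟨m, hm⟩ := ggood k
    filter_upwards [eventually_ge_atTop (max k m)] with n hn
    exact Nat.le_findGreatest ((le_max_left _ _).trans hn) (hm.mono ((le_max_right _ _).trans hn))
  have hq0 := h.q0
  refine ⟨fun m => g (K m), ganti.comp_monotone Kmono, ?_, glim.comp Klim, ?_⟩
  · intro m
    refine ⟨gpos _, ?_, ?_⟩
    · change g (K m) < 0
      by_cases hk : K m = 0
      · rw [hk, g0]
        exact ha0
      · have := gle _ hk
        linarith
    · change g (K m) < dl q (g (K m))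
      by_cases hk : K m = 0
      · rw [hk, g0]
        exact ha2
      · have h5 := gle _ hk
        have h6 := h.sq_lt (gpos _) h5
        have h7 := sq_nonneg (g (K m))
        linarith
  · intro m hm
    have h1 : P m 0 := by
      rw [hP]
      change AllGood q (g 0) (dl q (g 0)) m
      rw [g0]
      exact ha3.mono hm
    exact Nat.findGreatest_spec (Nat.zero_le m) h1

end Pool.Agent.H257R2.Tutte
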