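import Pool.Agent.H257R2.Tutte.Rank

set_option autoImplicit false

/-!
Weighted rank generating sums, the pointed quantities `Av`, `Bv`, and their behaviour under
deletion, contraction and 2-sums. The weight of `e` is written `y e = 1 + v e`.
-/

namespace Pool.Agent.H257R2.Tutte

open Finset

variable {E : Type} [DecidableEq E]

/-- `H q r y T C = ∑ A ⊆ T, q ^ (-r (A ∪ C)) * ∏ a ∈ A, (y a - 1)` -/
noncomputable def H (q : ℝ) (r : Finset E → ℤ) (y : E → ℝ) (T C : Finset E) : ℝ :=
  ∑ A ∈ T.powerset, q ^ (-(r (A ∪ C))) * ∏ a ∈ A, (y a - 1)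

theorem H_insert (q : ℝ) (r : Finset E → ℤ) (y : E → ℝ) {T : Finset E} {f : E} (hf : f ∉ T)
    (C : Finset E) :
    H q r y (insert f T) C = H q r y T C + (y f - 1) * H q r y T (insert f C) := by
  unfold H
  rw [sum_powerset_insert hf]
  congr 1
  rw [mul_sum]
  apply sum_congr rfl
  intro A hA
  rw [mem_powerset] at hA
  rw [prod_insert (fun h => hf (hA h)), insert_union, union_insert]
  ring

theorem H_empty (q : ℝ) (r : Finset E → ℤ) (y : E → ℝ) (C : Finset E) :
    H q r y ∅ C = q ^ (-(r C)) := by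
  unfold H
  simp

theorem H_ctr {q : ℝ} (hq : q ≠ 0) (r : Finset E → ℤ) (y : E → ℝ) (T C : Finset E) {f : E}
    (hf : r {f} = 1) :
    H q (ctr r f) y T C = q * H q r y T (insert f C) := by
  unfold H
  rw [mul_sum]
  apply sum_congr rfl
  intro A _
  unfold ctr
  rw [hf, union_insert, neg_sub, sub_eq_add_neg, zpow_add₀ hq, zpow_one]
  ring

theorem H_congr (q : ℝ) (r : Finset E → ℤ) {y y' : E → ℝ} {T : Finset E}
    (h : ∀ a ∈ T, y a = y' a) (C : Finset E) : H q r y T C = H q r y' T C := by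
  unfold H
  apply sum_congr rfl
  intro A hA
  rw [mem_powerset] at hA
  rw [prod_congr rfl (fun a ha => by rw [h a (hA ha)])]

/-- the pointed quantity `A` -/
noncomputable def Av (q : ℝ) (r : Finset E → ℤ) (y : E → ℝ) (S : Finset E) (e : E) : ℝ :=
  (-q) ^ (r S) * (H q r y (S.erase e) ∅ - H q r y (S.erase e) {e}) / (1 - q)

/-- the pointed quantity `B` -/
noncomputable def Bv (q : ℝ) (r : Finset E → ℤ) (y : E → ℝ) (S : Finset E) (e : E) : ℝ :=
  -((-q) ^ (r S) * H q r y (S.erase e) {e})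

/-- the normalised partition function -/
noncomputable def zf (q : ℝ) (r : Finset E → ℤ) (y : E → ℝ) (S : Finset E) : ℝ :=
  (-q) ^ (r S) * H q r y S ∅

theorem zf_eq {q : ℝ} (hq1 : q ≠ 1) (r : Finset E → ℤ) (y : E → ℝ) {S : Finset E} {e : E}
    (he : e ∈ S) : zf q r y S = Av q r y S e * (1 - q) - y e * Bv q r y S e := by
  have h1 : (1 : ℝ) - q ≠ 0 := sub_ne_zero.2 (Ne.symm hq1)
  unfold zf Av Bv
  rw [div_mul_cancel₀ _ h1]
  conv_lhs => rw [← insert_erase he]
  rw [insert_erase he, ← insert_erase he, H_insert q r y (notMem_erase e S), insert_erase he,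
    insert_empty_eq]
  ring

/-- deletion and contraction in a pointed matroid -/
theorem del_ctr {q : ℝ} (hq0 : q ≠ 0) (hq1 : q ≠ 1) {r : Finset E → ℤ} (y : E → ℝ)
    {S : Finset E} {e f : E} (he : e ∈ S) (hf : f ∈ S) (hef : e ≠ f)
    (hf1 : r {f} = 1) (he1 : r {e} = 1) (hSf : r (S.erase f) = r S) (hSe : r (S.erase e) = r S) :
    Av q r y S e = Av q r y (S.erase f) e - (y f - 1) * Av q (ctr r f) y (S.erase f) e ∧
    Bv q r y S e = Bv q r y (S.erase f) e - (y f - 1) * Bv q (ctr r f) y (S.erase f) e ∧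
    Bv q r y (S.erase f) e + Bv q (ctr r f) y (S.erase f) e =
      (1 - q) * Av q (ctr r e) y (S.erase e) f ∧
    (Av q r y (S.erase f) e * (1 - q) - Bv q r y (S.erase f) e) +
      (Av q (ctr r f) y (S.erase f) e * (1 - q) - Bv q (ctr r f) y (S.erase f) e) =
      (1 - q) * Av q r y (S.erase e) f := by
  have h1 : (1 : ℝ) - q ≠ 0 := sub_ne_zero.2 (Ne.symm hq1)
  have hT : S.erase e = insert f ((S.erase f).erase e) := by
    rw [erase_right_comm, insert_erase]
    exact mem_erase.2 ⟨hef.symm, hf⟩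
  have hT2 : (S.erase e).erase f = (S.erase f).erase e := erase_right_comm
  have hfT : f ∉ (S.erase f).erase e := by
    intro h
    exact notMem_erase f S (mem_of_mem_erase h)
  have r1 : ctr r f (S.erase f) = r S - 1 := by
    unfold ctr
    rw [insert_erase hf, hf1]
  have r2 : ctr r e (S.erase e) = r S - 1 := by
    unfold ctr
    rw [insert_erase he, he1]
  have hnq : (-q : ℝ) ≠ 0 := neg_ne_zero.2 hq0
  have p1 : (-q) ^ (r S - 1) * q = -((-q) ^ (r S)) := by
    rw [zpow_sub₀ hnq, zpow_one]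
    field_simp
  unfold Av Bv
  rw [hT2, r1, r2, hSf, hSe, H_ctr hq0 r y _ _ hf1, H_ctr hq0 r y _ _ hf1,
    H_ctr hq0 r y _ _ he1, H_ctr hq0 r y _ _ he1]
  rw [show H q r y (S.erase e) ∅ = H q r y (insert f ((S.erase f).erase e)) ∅ by rw [← hT],
    show H q r y (S.erase e) {e} = H q r y (insert f ((S.erase f).erase e)) {e} by rw [← hT],
    H_insert q r y hfT, H_insert q r y hfT]
  have e1 : (insert f (∅ : Finset E)) = {f} := insert_empty_eq f
  have e2 : (insert e (∅ : Finset E)) = {e} := insert_empty_eq e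
  have e3 : (insert f ({e} : Finset E)) = insert e {f} := pair_comm f e
  rw [e1, e2, e3]
  set h00 := H q r y ((S.erase f).erase e) ∅
  set h01 := H q r y ((S.erase f).erase e) {f}
  set h10 := H q r y ((S.erase f).erase e) {e}
  set h11 := H q r y ((S.erase f).erase e) {e, f}
  set P := (-q) ^ (r S)
  set P' := (-q) ^ (r S - 1)
  have k1 : ∀ x : ℝ, P' * (q * x) = -(P * x) := by
    intro x
    rw [← mul_assoc, p1]
    ring
  have k2 : ∀ x z : ℝ, P' * (q * x - q * z) = -(P * (x - z)) := by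
    intro x z
    rw [← mul_sub, k1]
  rw [k2, k2, k1]
  refine ⟨?_, ?_, ?_, ?_⟩ <;> field_simp <;> ring

end Pool.Agent.H257R2.Tutte
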